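import Pool.Agent.Q29.TV.Defs

/-!
# Thin annuli: doubling implies that the ratio of consecutive balls tends to one
-/

open Filter

namespace Q29.TV

variable {G : Type*} [Group G]

section Basic

variable (X : Set G)

theorem ball_mono {n m : ℕ} (h : n ≤ m) : ball X n ⊆ ball X m := by
  rintro g ⟨l, hl, hs, hp⟩
  exact ⟨l, hl.trans h, hs, hp⟩

theorem one_mem_ball (n : ℕ) : (1 : G) ∈ ball X n := ⟨[], by simp, by simp, rfl⟩

theorem mul_mem_ball {n m : ℕ} {g h : G} (hg : g ∈ ball X n) (hh : h ∈ ball X m) :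
    g * h ∈ ball X (n + m) := by
  obtain ⟨l, hl, hs, rfl⟩ := hg
  obtain ⟨l', hl', hs', rfl⟩ := hh
  refine ⟨l ++ l', by rw [List.length_append]; omega, ?_, List.prod_append⟩
  intro x hx
  rw [List.mem_append] at hx
  exact hx.elim (hs x) (hs' x)

theorem inv_mem_ball {n : ℕ} {g : G} (hg : g ∈ ball X n) : g⁻¹ ∈ ball X n := by
  obtain ⟨l, hl, hs, rfl⟩ := hg
  refine ⟨(l.map fun x => x⁻¹).reverse, by simpa using hl, ?_, ?_⟩
  · intro x hx
    simp only [List.mem_reverse, List.mem_map] at hx
    obtain ⟨y, hy, rfl⟩ := hx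
    rw [inv_inv]
    exact (hs y hy).symm
  · rw [List.prod_inv_reverse]

theorem split_ball {n m : ℕ} {g : G} (hg : g ∈ ball X (n + m)) :
    ∃ a ∈ ball X n, ∃ b ∈ ball X m, g = a * b := by
  obtain ⟨l, hl, hs, rfl⟩ := hg
  refine ⟨(l.take n).prod, ⟨l.take n, by simp, fun x hx => hs x (List.mem_of_mem_take hx), rfl⟩,
    (l.drop n).prod, ⟨l.drop n, by rw [List.length_drop]; omega,
      fun x hx => hs x (List.mem_of_mem_drop hx), rfl⟩, ?_⟩
  rw [List.prod_take_mul_prod_drop]

end Basic

section Fin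

variable {X : Set G} (hX : X.Finite)
include hX

theorem ball_finite (n : ℕ) : (ball X n).Finite := by
  induction n with
  | zero =>
    apply (Set.finite_singleton (1 : G)).subset
    rintro g ⟨l, hl, _, rfl⟩
    have : l = [] := List.length_eq_zero_iff.mp (by omega)
    subst this
    simp
  | succ n ih =>
    apply (ih.union ((hX.union hX.inv).mul ih)).subset
    rintro g ⟨l, hl, hs, rfl⟩
    match l, hl, hs with
    | [], _, _ => exact Or.inl (one_mem_ball X n)
    | s :: l', hl, hs =>
      refine Or.inr ?_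
      rw [List.prod_cons]
      apply Set.mul_mem_mul
      · rcases hs s (by simp) with h | h
        · exact Or.inl h
        · exact Or.inr h
      · exact ⟨l', by simp at hl; omega, fun x hx => hs x (by simp [hx]), rfl⟩

theorem ball_card_pos (n : ℕ) : 0 < (ball X n).ncard :=
  (Set.ncard_pos (ball_finite hX n)).mpr ⟨1, one_mem_ball X n⟩

theorem ball_card_mono {n m : ℕ} (h : n ≤ m) : (ball X n).ncard ≤ (ball X m).ncard :=
  Set.ncard_le_ncard (ball_mono X h) (ball_finite hX m)

/-- The counting inequality for annuli: `|B(r) \ B(r-s)| |B(s/2)| ≤ |B(r-s) \ B(r-3s)| |B(3s)|`. -/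
theorem annulus {r s : ℕ} (hs : 1 ≤ s) (hr : 3 * s ≤ r) :
    ((ball X r).ncard - (ball X (r - s)).ncard) * (ball X (s / 2)).ncard ≤
      ((ball X (r - s)).ncard - (ball X (r - 3 * s)).ncard) * (ball X (3 * s)).ncard := by
  classical
  -- finsets
  set B : ℕ → Finset G := fun n => (ball_finite hX n).toFinset with hB
  have hcard : ∀ n, (ball X n).ncard = (B n).card := fun n =>
    Set.ncard_eq_toFinset_card _ (ball_finite hX n)
  have hmem : ∀ n g, g ∈ B n ↔ g ∈ ball X n := fun n g => by simp [hB]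
  have hmono : ∀ {n m : ℕ}, n ≤ m → B n ⊆ B m := fun h g hg =>
    (hmem _ _).mpr (ball_mono X h ((hmem _ _).mp hg))
  have h1 : (ball X r).ncard - (ball X (r - s)).ncard = (B r \ B (r - s)).card := by
    rw [Finset.card_sdiff_of_subset (hmono (by omega)), hcard, hcard]
  have h2 : (ball X (r - s)).ncard - (ball X (r - 3 * s)).ncard =
      (B (r - s) \ B (r - 3 * s)).card := by
    rw [Finset.card_sdiff_of_subset (hmono (by omega)), hcard, hcard]
  rw [h1, h2, hcard, hcard]
  -- double counting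
  have hlow : (B r \ B (r - s)).card * (B (s / 2)).card ≤
      ∑ y ∈ B r \ B (r - s), ((B (r - s) \ B (r - 3 * s)).filter
        fun w => w⁻¹ * y ∈ B (3 * s)).card := by
    rw [← smul_eq_mul, ← Finset.sum_const]
    apply Finset.sum_le_sum
    intro y hy
    rw [Finset.mem_sdiff, hmem, hmem] at hy
    -- the length of `y`
    obtain ⟨ℓ, hℓ1, hℓ2, hℓ3, hℓ4⟩ : ∃ ℓ, y ∈ ball X ℓ ∧ y ∉ ball X (ℓ - 1) ∧ r - s < ℓ ∧ ℓ ≤ r := by
      have hex : ∃ ℓ, y ∈ ball X ℓ := ⟨r, hy.1⟩
      refine ⟨Nat.find hex, Nat.find_spec hex, ?_, ?_, Nat.find_min' hex hy.1⟩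
      · have h0 : Nat.find hex ≠ 0 := by
          intro h0
          have := Nat.find_spec hex
          rw [h0] at this
          exact hy.2 (ball_mono X (Nat.zero_le _) this)
        exact Nat.find_min hex (by omega)
      · by_contra hcon
        push Not at hcon
        exact hy.2 (ball_mono X hcon (Nat.find_spec hex))
    obtain ⟨z, hz, w, hw, rfl⟩ := split_ball X (n := r - 2 * s) (m := ℓ - (r - 2 * s))
      (by rwa [show r - 2 * s + (ℓ - (r - 2 * s)) = ℓ by omega])
    have hz' : z ∉ ball X (r - 2 * s - 1) := by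
      intro hz'
      apply hℓ2
      have := mul_mem_ball X hz' hw
      exact ball_mono X (by omega) this
    apply Finset.card_le_card_of_injOn (fun x => z * x)
    · intro x hx
      have hx' : x ∈ ball X (s / 2) := (hmem _ _).mp hx
      rw [Finset.coe_filter]
      simp only [Set.mem_ofPred_eq, Finset.mem_sdiff, hmem]
      refine ⟨⟨?_, ?_⟩, ?_⟩
      · exact ball_mono X (by omega) (mul_mem_ball X hz hx')
      · intro hcon
        apply hz'
        have := mul_mem_ball X hcon (inv_mem_ball X hx')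
        rw [mul_inv_cancel_right] at this
        exact ball_mono X (by omega) this
      · have : (z * x)⁻¹ * (z * w) = x⁻¹ * w := by group
        rw [this]
        exact ball_mono X (by omega) (mul_mem_ball X (inv_mem_ball X hx') hw)
    · intro a _ b _ hab
      exact mul_left_cancel hab
  have hup : ∑ y ∈ B r \ B (r - s), ((B (r - s) \ B (r - 3 * s)).filter
        fun w => w⁻¹ * y ∈ B (3 * s)).card ≤
      (B (r - s) \ B (r - 3 * s)).card * (B (3 * s)).card := by
    have h3 : ∑ y ∈ B r \ B (r - s), ((B (r - s) \ B (r - 3 * s)).filter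
        fun w => w⁻¹ * y ∈ B (3 * s)).card = ∑ w ∈ B (r - s) \ B (r - 3 * s),
        ((B r \ B (r - s)).filter fun y => w⁻¹ * y ∈ B (3 * s)).card := by
      simp only [Finset.card_filter]
      rw [Finset.sum_comm]
    rw [h3]
    calc _ ≤ ∑ w ∈ B (r - s) \ B (r - 3 * s), (B (3 * s)).card := by
          apply Finset.sum_le_sum
          intro w _
          apply Finset.card_le_card_of_injOn (fun y => w⁻¹ * y)
          · intro y hy
            rw [Finset.coe_filter] at hy
            exact hy.2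
          · intro a _ b _ hab
            exact mul_left_cancel hab
      _ = _ := by rw [Finset.sum_const, smul_eq_mul]
  exact hlow.trans hup

/-- Doubling implies `|B(n)| / |B(n+1)| → 1`. -/
theorem ratio_of_doubling {K : ℕ} (hK : ∀ s, 1 ≤ s → (ball X (3 * s)).ncard ≤
      K * (ball X (s / 2)).ncard) :
    Tendsto (fun n => (((ball X (n + 1)).ncard : ℝ) - (ball X n).ncard) /
      (ball X (n + 1)).ncard) atTop (nhds 0) := by
  set b : ℕ → ℝ := fun n => ((ball X n).ncard : ℝ) with hb
  have hbpos : ∀ n, 0 < b n := fun n => by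
    simp only [hb]; exact_mod_cast ball_card_pos hX n
  have hbmono : ∀ {n m : ℕ}, n ≤ m → b n ≤ b m := fun h => by
    simp only [hb]; exact_mod_cast ball_card_mono hX h
  have hstep : ∀ r s : ℕ, 1 ≤ s → 3 * s ≤ r →
      (K + 1) * (b r - b (r - s)) ≤ K * (b r - b (r - 3 * s)) := by
    intro r s hs hr
    have h1 := annulus hX hs hr
    have h2 := hK s hs
    have h3 : ((ball X r).ncard - (ball X (r - s)).ncard) * (ball X (s / 2)).ncard ≤
        (((ball X (r - s)).ncard - (ball X (r - 3 * s)).ncard) * K) * (ball X (s / 2)).ncard := by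
      refine h1.trans ?_
      rw [mul_assoc]
      exact Nat.mul_le_mul_left _ h2
    have h4 := Nat.le_of_mul_le_mul_right h3 (ball_card_pos hX (s / 2))
    have h5 : ((((ball X r).ncard - (ball X (r - s)).ncard : ℕ)) : ℝ) ≤
        (((((ball X (r - s)).ncard - (ball X (r - 3 * s)).ncard) * K : ℕ)) : ℝ) := by
      exact_mod_cast h4
    rw [Nat.cast_sub (ball_card_mono hX (by omega)), Nat.cast_mul,
      Nat.cast_sub (ball_card_mono hX (by omega))] at h5
    simp only [hb]
    linarith
  have hiter : ∀ k r : ℕ, 3 ^ k ≤ r → (K + 1 : ℝ) ^ k * (b r - b (r - 1)) ≤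
      (K : ℝ) ^ k * (b r - b (r - 3 ^ k)) := by
    intro k
    induction k with
    | zero => intro r _; simp
    | succ k ih =>
      intro r hr
      have e : 3 ^ (k + 1) = 3 * 3 ^ k := by ring
      have h1 := ih r (by omega)
      have h2 := hstep r (3 ^ k) (Nat.one_le_pow _ _ (by norm_num)) (by omega)
      rw [← e] at h2
      calc (K + 1 : ℝ) ^ (k + 1) * (b r - b (r - 1))
          = (K + 1) * ((K + 1 : ℝ) ^ k * (b r - b (r - 1))) := by ring
        _ ≤ (K + 1) * ((K : ℝ) ^ k * (b r - b (r - 3 ^ k))) := by gcongr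
        _ = (K : ℝ) ^ k * ((K + 1) * (b r - b (r - 3 ^ k))) := by ring
        _ ≤ (K : ℝ) ^ k * (K * (b r - b (r - 3 ^ (k + 1)))) := by gcongr
        _ = _ := by ring
  rw [Metric.tendsto_atTop]
  intro ε hε
  have hq : (K : ℝ) / (K + 1) < 1 := by
    rw [div_lt_one (by positivity)]; linarith
  obtain ⟨k, hk⟩ := exists_pow_lt_of_lt_one hε hq
  refine ⟨3 ^ k, fun n hn => ?_⟩
  have h1 := hiter k (n + 1) (by omega)
  rw [Nat.add_sub_cancel] at h1
  have hK1 : (0 : ℝ) < (K + 1 : ℝ) ^ k := by positivity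
  have h2 : b (n + 1) - b n ≤ ((K : ℝ) / (K + 1)) ^ k * b (n + 1) := by
    rw [div_pow, div_mul_eq_mul_div, le_div_iff₀ hK1]
    calc (b (n + 1) - b n) * (K + 1 : ℝ) ^ k ≤ (K : ℝ) ^ k * (b (n + 1) - b (n + 1 - 3 ^ k)) := by
          linarith
      _ ≤ (K : ℝ) ^ k * b (n + 1) := by
          have := (hbpos (n + 1 - 3 ^ k)).le
          gcongr
          linarith
  have h3 : 0 ≤ (b (n + 1) - b n) / b (n + 1) :=
    div_nonneg (sub_nonneg.mpr (hbmono (by omega))) (hbpos _).le
  rw [Real.dist_eq, sub_zero]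
  change |(b (n + 1) - b n) / b (n + 1)| < ε
  rw [abs_of_nonneg h3]
  have h4 : (b (n + 1) - b n) / b (n + 1) ≤ ((K : ℝ) / (K + 1)) ^ k := by
    rw [div_le_iff₀ (hbpos _)]
    exact h2
  linarith

end Fin

end Q29.TV
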