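import Pool.Agent.Q29.TV.Ann

/-!
# Doubling for finitely generated virtually abelian groups
-/

open Filter

namespace Q29.TV

section Comm

variable {C : Type*} [CommGroup C] (S : Finset C)

open Classical in
/-- boxes in a commutative group -/
noncomputable def box (n : ℕ) : Finset C :=
  (Fintype.piFinset fun _ : S => Finset.Icc (-(n : ℤ)) n).image fun m => ∏ s : S, (s : C) ^ (m s)

theorem mem_box (n : ℕ) (x : C) : x ∈ box S n ↔
    ∃ m : S → ℤ, (∀ s, (m s).natAbs ≤ n) ∧ x = ∏ s : S, (s : C) ^ (m s) := by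
  classical
  rw [box, Finset.mem_image]
  constructor
  · rintro ⟨m, hm, rfl⟩
    rw [Fintype.mem_piFinset] at hm
    refine ⟨m, fun s => ?_, rfl⟩
    have := hm s
    rw [Finset.mem_Icc] at this
    omega
  · rintro ⟨m, hm, rfl⟩
    refine ⟨m, ?_, rfl⟩
    rw [Fintype.mem_piFinset]
    intro s
    have := hm s
    rw [Finset.mem_Icc]
    omega

theorem one_mem_box (n : ℕ) : (1 : C) ∈ box S n := by
  rw [mem_box]
  exact ⟨fun _ => 0, fun _ => by simp, by simp⟩

theorem box_mono {n m : ℕ} (h : n ≤ m) : box S n ⊆ box S m := by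
  intro x hx
  rw [mem_box] at hx ⊢
  obtain ⟨k, hk, rfl⟩ := hx
  exact ⟨k, fun s => (hk s).trans h, rfl⟩

theorem mul_letter_mem_box {n : ℕ} {x : C} (hx : x ∈ box S n) {s : C} (hs : s ∈ S) (ε : ℤ)
    (hε : ε.natAbs ≤ 1) : s ^ ε * x ∈ box S (n + 1) := by
  classical
  rw [mem_box] at hx ⊢
  obtain ⟨m, hm, rfl⟩ := hx
  refine ⟨fun t => m t + if t = ⟨s, hs⟩ then ε else 0, fun t => ?_, ?_⟩
  · have := hm t
    dsimp only
    split_ifs
    · have := Int.natAbs_add_le (m t) ε
      omega
    · rw [add_zero]; omega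
  · have h1 : ∏ t : S, (t : C) ^ (m t + if t = ⟨s, hs⟩ then ε else 0) =
        (∏ t : S, (t : C) ^ (m t)) * ∏ t : S, (t : C) ^ (if t = ⟨s, hs⟩ then ε else 0) := by
      rw [← Finset.prod_mul_distrib]
      apply Finset.prod_congr rfl
      intro t _
      rw [zpow_add]
    rw [h1, mul_comm]
    congr 1
    rw [Finset.prod_eq_single ⟨s, hs⟩]
    · simp
    · intro t _ ht
      rw [if_neg ht, zpow_zero]
    · intro h
      exact absurd (Finset.mem_univ _) h

theorem ball_sub_box (n : ℕ) : ball (S : Set C) n ⊆ (box S n : Set C) := by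
  rintro x ⟨l, hl, hs, rfl⟩
  induction l generalizing n with
  | nil => exact one_mem_box S n
  | cons a l ih =>
    rw [List.length_cons] at hl
    obtain ⟨k, rfl⟩ : ∃ k, n = k + 1 := ⟨n - 1, by omega⟩
    have h1 := ih k (by omega) fun x hx => hs x (by simp [hx])
    rw [List.prod_cons]
    rcases hs a (by simp) with h | h
    · have := mul_letter_mem_box S h1 h 1 (by simp)
      rwa [zpow_one] at this
    · have := mul_letter_mem_box S h1 h (-1) (by simp)
      rwa [zpow_neg, zpow_one, inv_inv] at this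

theorem box_double (n : ℕ) : (box S (2 * n)).card ≤ 3 ^ S.card * (box S n).card := by
  classical
  have hsub : box S (2 * n) ⊆ ((Fintype.piFinset fun _ : S => Finset.Icc (-1 : ℤ) 1) ×ˢ
      box S n).image fun p => (∏ s : S, (s : C) ^ ((n : ℤ) * p.1 s)) * p.2 := by
    intro x hx
    rw [mem_box] at hx
    obtain ⟨m, hm, rfl⟩ := hx
    rw [Finset.mem_image]
    let ε : S → ℤ := fun s => if (n : ℤ) < m s then 1 else if m s < -(n : ℤ) then -1 else 0
    refine ⟨(ε, ∏ s : S, (s : C) ^ (m s - n * ε s)), ?_, ?_⟩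
    · rw [Finset.mem_product]
      constructor
      · rw [Fintype.mem_piFinset]
        intro s
        rw [Finset.mem_Icc]
        simp only [ε]
        split_ifs <;> omega
      · rw [mem_box]
        refine ⟨fun s => m s - n * ε s, fun s => ?_, rfl⟩
        have := hm s
        simp only [ε]
        split_ifs <;> omega
    · simp only
      rw [← Finset.prod_mul_distrib]
      apply Finset.prod_congr rfl
      intro s _
      rw [← zpow_add]
      congr 1
      ring
  refine (Finset.card_le_card hsub).trans (Finset.card_image_le.trans ?_)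
  rw [Finset.card_product]
  apply Nat.mul_le_mul_right
  rw [Fintype.card_piFinset]
  simp

theorem box_double_iter (j n : ℕ) : (box S (2 ^ j * n)).card ≤ 3 ^ (S.card * j) * (box S n).card := by
  induction j with
  | zero => simp
  | succ j ih =>
    have e : 2 ^ (j + 1) * n = 2 * (2 ^ j * n) := by ring
    rw [e]
    calc (box S (2 * (2 ^ j * n))).card ≤ 3 ^ S.card * (box S (2 ^ j * n)).card := box_double S _
      _ ≤ 3 ^ S.card * (3 ^ (S.card * j) * (box S n).card) := Nat.mul_le_mul_left _ ih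
      _ = 3 ^ (S.card * (j + 1)) * (box S n).card := by ring

/-- lengths of the elements of a box -/
theorem box_len (f : C → ℕ) (h1 : f 1 = 0) (hm : ∀ x y, f (x * y) ≤ f x + f y)
    (hi : ∀ x, f x⁻¹ = f x) {n : ℕ} {x : C} (hx : x ∈ box S n) :
    f x ≤ n * ∑ s ∈ S, f s := by
  classical
  rw [mem_box] at hx
  obtain ⟨m, hm', rfl⟩ := hx
  have hpow : ∀ (y : C) (k : ℕ), f (y ^ k) ≤ k * f y := by
    intro y k
    induction k with
    | zero => simp [h1]
    | succ k ih =>
      rw [pow_succ]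
      have := hm (y ^ k) y
      linarith [Nat.succ_mul k (f y)]
  have hzpow : ∀ (y : C) (k : ℤ), f (y ^ k) ≤ k.natAbs * f y := by
    intro y k
    obtain ⟨j, rfl | rfl⟩ := Int.eq_nat_or_neg k
    · rw [zpow_natCast, Int.natAbs_natCast]; exact hpow y j
    · rw [zpow_neg, zpow_natCast, hi, Int.natAbs_neg, Int.natAbs_natCast]; exact hpow y j
  have hprod : ∀ (T : Finset S), f (∏ s ∈ T, (s : C) ^ (m s)) ≤ ∑ s ∈ T, n * f s := by
    intro T
    induction T using Finset.induction_on with
    | empty => simp [h1]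
    | insert s T hs ih =>
      rw [Finset.prod_insert hs, Finset.sum_insert hs]
      have e1 := hm ((s : C) ^ (m s)) (∏ t ∈ T, (t : C) ^ (m t))
      have e2 := hzpow (s : C) (m s)
      have e3 : (m s).natAbs * f s ≤ n * f s := Nat.mul_le_mul_right _ (hm' s)
      omega
  refine (hprod Finset.univ).trans (le_of_eq ?_)
  rw [← Finset.mul_sum]
  congr 1
  exact Finset.sum_coe_sort S f

end Comm

/-- **Doubling** for a finitely generated group with an abelian normal subgroup of finite
index. -/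
theorem doubling {G : Type*} [Group G] {X : Set G} (hX : X.Finite)
    (hgen : Subgroup.closure X = ⊤) (A : Subgroup G) [A.Normal] [A.FiniteIndex]
    (hA : ∀ a ∈ A, ∀ b ∈ A, a * b = b * a) :
    ∃ K : ℕ, ∀ s, 1 ≤ s → (ball X (3 * s)).ncard ≤ K * (ball X (s / 2)).ncard := by
  classical
  let _ : CommGroup A := { (inferInstance : Group A) with
    mul_comm := fun a b => Subtype.ext (hA a a.2 b b.2) }
  have hfin : Finite (G ⧸ A) := Subgroup.finite_quotient_of_finiteIndex
  -- representatives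
  let ρ : G → G := fun g => (QuotientGroup.mk g : G ⧸ A).out
  have hρ : ∀ g, (ρ g)⁻¹ * g ∈ A := fun g => by
    rw [← QuotientGroup.eq]
    exact QuotientGroup.out_eq' _
  let T : Set G := Set.range fun q : G ⧸ A => q.out
  have hT : T.Finite := Set.finite_range _
  -- Schreier generators
  let SA : Set A := {a | (∃ t ∈ T, ∃ x, (x ∈ X ∨ x⁻¹ ∈ X) ∧ (a : G) = (ρ (x * t))⁻¹ * (x * t)) ∨
    (a : G) = (ρ 1)⁻¹ * 1}
  have hSA : SA.Finite := by
    have h1 : ((fun p : G × G => (ρ (p.1 * p.2))⁻¹ * (p.1 * p.2)) '' ((X ∪ X⁻¹) ×ˢ T) ∪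
        {(ρ 1)⁻¹ * 1}).Finite :=
      (((hX.union hX.inv).prod hT).image _).union (Set.finite_singleton _)
    apply (h1.preimage (f := fun a : A => (a : G)) Subtype.val_injective.injOn).subset
    rintro a (⟨t, ht, x, hx, ha⟩ | ha)
    · left
      refine ⟨(x, t), ⟨?_, ht⟩, ha.symm⟩
      rcases hx with h | h
      · exact Or.inl h
      · exact Or.inr h
    · right; exact ha
  set S : Finset A := hSA.toFinset with hS
  have hSmem : ∀ a, a ∈ S ↔ a ∈ SA := fun a => by simp [hS]
  have hcover : ∀ n : ℕ, ∀ g ∈ ball X n, ∃ t ∈ T, ∃ a ∈ box S (n + 1), g = t * (a : G) := by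
    intro n
    suffices H : ∀ l : List G, l.length ≤ n → (∀ x ∈ l, x ∈ X ∨ x⁻¹ ∈ X) →
        ∃ t ∈ T, ∃ a ∈ box S (l.length + 1), l.prod = t * (a : G) by
      rintro g ⟨l, hl, hs, rfl⟩
      obtain ⟨t, ht, a, ha, h⟩ := H l hl hs
      exact ⟨t, ht, a, box_mono S (by omega) ha, h⟩
    intro l
    induction l with
    | nil =>
      intro _ _
      refine ⟨ρ 1, ⟨_, rfl⟩, ⟨(ρ 1)⁻¹ * 1, hρ 1⟩, ?_, by simp⟩
      have h1 : (⟨(ρ 1)⁻¹ * 1, hρ 1⟩ : A) ∈ S := (hSmem _).mpr (Or.inr rfl)
      have h2 := mul_letter_mem_box S (one_mem_box S 0) h1 1 (by simp)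
      rwa [zpow_one, mul_one] at h2
    | cons x l ih =>
      intro hl hs
      obtain ⟨t, ht, a, ha, h⟩ := ih (by simp at hl; omega) fun y hy => hs y (by simp [hy])
      refine ⟨ρ (x * t), ⟨_, rfl⟩, ⟨(ρ (x * t))⁻¹ * (x * t), hρ _⟩ * a, ?_, ?_⟩
      · have h1 : (⟨(ρ (x * t))⁻¹ * (x * t), hρ _⟩ : A) ∈ S :=
          (hSmem _).mpr (Or.inl ⟨t, ht, x, hs x (by simp), rfl⟩)
        have h2 := mul_letter_mem_box S ha h1 1 (by simp)
        rw [zpow_one] at h2
        rw [List.length_cons]
        exact h2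
      · rw [List.prod_cons, h, Subgroup.coe_mul]
        simp only
        group
  -- length in `G`
  have hlen : ∀ g : G, ∃ n, g ∈ ball X n := by
    intro g
    have hg : g ∈ Subgroup.closure X := hgen ▸ Subgroup.mem_top g
    rw [← Subgroup.mem_toSubmonoid, Subgroup.closure_toSubmonoid] at hg
    obtain ⟨l, hl, hp⟩ := Submonoid.exists_list_of_mem_closure hg
    exact ⟨l.length, l, le_rfl, fun x hx => by simpa using hl x hx, hp⟩
  let f : A → ℕ := fun a => Nat.find (hlen (a : G))
  have hf : ∀ a : A, (a : G) ∈ ball X (f a) := fun a => Nat.find_spec (hlen (a : G))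
  have hfle : ∀ (a : A) (n : ℕ), (a : G) ∈ ball X n → f a ≤ n := fun a n h =>
    Nat.find_min' (hlen (a : G)) h
  have hf1 : f 1 = 0 := by
    have := hfle 1 0 (one_mem_ball X 0)
    omega
  have hfm : ∀ a b, f (a * b) ≤ f a + f b := fun a b =>
    hfle _ _ (mul_mem_ball X (hf a) (hf b))
  have hfi : ∀ a, f a⁻¹ = f a := by
    intro a
    apply le_antisymm
    · exact hfle _ _ (inv_mem_ball X (hf a))
    · have := hfle a (f a⁻¹) (by
        have := inv_mem_ball X (hf a⁻¹)
        simpa using this)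
      exact this
  set ℓ : ℕ := ∑ s ∈ S, f s + 1 with hℓ
  have hbox_ball : ∀ n, (box S n).card ≤ (ball X (n * ℓ)).ncard := by
    intro n
    rw [← Set.ncard_coe_finset, ← Set.ncard_image_of_injective _ (f := fun a : A => (a : G))
      Subtype.val_injective]
    apply Set.ncard_le_ncard _ (ball_finite hX _)
    rintro _ ⟨a, ha, rfl⟩
    have h1 := box_len S f hf1 hfm hfi (Finset.mem_coe.mp ha)
    exact ball_mono X (h1.trans (Nat.mul_le_mul_left _ (by omega))) (hf a)
  have hball_box : ∀ n, (ball X n).ncard ≤ hT.toFinset.card * (box S (n + 1)).card := by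
    intro n
    rw [← Finset.card_product]
    have : ball X n ⊆ (((hT.toFinset ×ˢ box S (n + 1)).image
        fun p => p.1 * (p.2 : G) : Finset G) : Set G) := by
      intro g hg
      obtain ⟨t, ht, a, ha, rfl⟩ := hcover n g hg
      rw [Finset.mem_coe, Finset.mem_image]
      exact ⟨(t, a), Finset.mem_product.mpr ⟨hT.mem_toFinset.mpr ht, ha⟩, rfl⟩
    refine (Set.ncard_le_ncard this (Finset.finite_toSet _)).trans ?_
    rw [Set.ncard_coe_finset]
    exact Finset.card_image_le
  refine ⟨hT.toFinset.card * 3 ^ (S.card * (16 * ℓ)) + (ball X (6 * ℓ)).ncard, fun s hs => ?_⟩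
  by_cases hs' : s < 2 * ℓ
  · have h1 := ball_card_mono hX (show 3 * s ≤ 6 * ℓ by omega)
    have h2 := ball_card_pos hX (s / 2)
    nlinarith [Nat.zero_le (hT.toFinset.card * 3 ^ (S.card * (16 * ℓ)))]
  · push Not at hs'
    set N := s / (2 * ℓ) with hN
    have hℓ0 : 0 < 2 * ℓ := by omega
    have hN1 : 1 ≤ N := (Nat.le_div_iff_mul_le hℓ0).mpr (by omega)
    have h1 : N * ℓ ≤ s / 2 := by
      rw [Nat.le_div_iff_mul_le (by norm_num)]
      have := Nat.div_mul_le_self s (2 * ℓ)
      rw [← hN] at this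
      linarith
    have h2 : s < 2 * ℓ * (N + 1) := by
      have := Nat.lt_mul_div_succ s hℓ0
      rwa [← hN] at this
    have h3 : 3 * s + 1 ≤ 2 ^ (16 * ℓ) * N := by
      have h4 : 16 * ℓ ≤ 2 ^ (16 * ℓ) := Nat.lt_two_pow_self.le
      calc 3 * s + 1 ≤ 16 * ℓ * N := by nlinarith
        _ ≤ _ := Nat.mul_le_mul_right _ h4
    calc (ball X (3 * s)).ncard ≤ hT.toFinset.card * (box S (3 * s + 1)).card := hball_box _
      _ ≤ hT.toFinset.card * (box S (2 ^ (16 * ℓ) * N)).card :=
          Nat.mul_le_mul_left _ (Finset.card_le_card (box_mono S h3))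
      _ ≤ hT.toFinset.card * (3 ^ (S.card * (16 * ℓ)) * (box S N).card) :=
          Nat.mul_le_mul_left _ (box_double_iter S _ _)
      _ ≤ hT.toFinset.card * (3 ^ (S.card * (16 * ℓ)) * (ball X (s / 2)).ncard) := by
          have := (hbox_ball N).trans (ball_card_mono hX h1)
          gcongr
      _ = hT.toFinset.card * 3 ^ (S.card * (16 * ℓ)) * (ball X (s / 2)).ncard := by ring
      _ ≤ _ := Nat.mul_le_mul_right _ (Nat.le_add_right _ _)

end Q29.TV
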