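import Mathlib

/-!
# The degree of twisted commutativity: definitions
-/

open Filter

namespace Q29.TV

/-- The ball of radius `n`: the products of at most `n` elements of `X ∪ X⁻¹`. -/
def ball {G : Type*} [Group G] (X : Set G) (n : ℕ) : Set G :=
  {g | ∃ l : List G, l.length ≤ n ∧ (∀ x ∈ l, x ∈ X ∨ x⁻¹ ∈ X) ∧ l.prod = g}

/-- The degree of twisted commutativity `tdc_X(φ, G)`. -/
noncomputable def tdc {G : Type*} [Group G] (φ : G →* G) (X : Set G) : ℝ :=
  limsup (fun n : ℕ => (({p : G × G | p.1 ∈ ball X n ∧ p.2 ∈ ball X n ∧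
    p.1 * p.2 = p.2 * φ p.1}).ncard : ℝ) / ((ball X n).ncard : ℝ) ^ 2) atTop

/-- The degree of twisted commutativity `tdc(ψ, F)` of an endomorphism of a finite group. -/
noncomputable def tdcFinite {F : Type*} [Group F] (ψ : F →* F) : ℝ :=
  (({p : F × F | p.1 * p.2 = p.2 * ψ p.1}).ncard : ℝ) / (Nat.card F : ℝ) ^ 2

/-- The infimum `I(φ, G)` of the numbers `tdc(φ̄, G/N)` over the normal subgroups `N` of finite
index with `φ(N) ≤ N`. -/
noncomputable def infQuotients {G : Type*} [Group G] (φ : G →* G) : ℝ :=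
  sInf {t : ℝ | ∃ (N : Subgroup G) (_ : N.Normal) (h : N ≤ N.comap φ), N.FiniteIndex ∧
    t = tdcFinite (QuotientGroup.map N N φ h)}

/-- Virtually abelian groups: there is an abelian subgroup of finite index. -/
def IsVirtuallyAbelian (G : Type*) [Group G] : Prop :=
  ∃ A : Subgroup G, A.FiniteIndex ∧ ∀ a ∈ A, ∀ b ∈ A, a * b = b * a

end Q29.TV
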