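import Pool.Agent.Q29.TV.Dbl

/-!
# Equidistribution of the balls in the finite quotients
-/

open Filter Topology

namespace Q29.TV

variable {G : Type*} [Group G] {X : Set G}

theorem ratio_shift (hX : X.Finite)
    (hr : Tendsto (fun n => (((ball X (n + 1)).ncard : ℝ) - (ball X n).ncard) /
      (ball X (n + 1)).ncard) atTop (nhds 0)) (r : ℕ) :
    Tendsto (fun n => (((ball X (n + r)).ncard : ℝ) - (ball X n).ncard) /
      (ball X n).ncard) atTop (nhds 0) := by
  have hpos : ∀ n, (0 : ℝ) < (ball X n).ncard := fun n => by exact_mod_cast ball_card_pos hX n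
  have h1 : Tendsto (fun n => ((ball X (n + 1)).ncard : ℝ) / (ball X n).ncard) atTop (𝓝 1) := by
    have h2 : Tendsto (fun n => (1 - (((ball X (n + 1)).ncard : ℝ) - (ball X n).ncard) /
      (ball X (n + 1)).ncard)⁻¹) atTop (𝓝 ((1 - 0)⁻¹)) :=
      (tendsto_const_nhds.sub hr).inv₀ (by norm_num)
    rw [sub_zero, inv_one] at h2
    refine h2.congr fun n => ?_
    have h3 := hpos n
    have h4 := hpos (n + 1)
    rw [sub_div, div_self h4.ne', sub_sub_cancel, inv_div]
  have h2 : ∀ r, Tendsto (fun n => ((ball X (n + r)).ncard : ℝ) / (ball X n).ncard) atTop (𝓝 1) := by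
    intro r
    induction r with
    | zero =>
      refine tendsto_const_nhds.congr fun n => ?_
      rw [add_zero, div_self (hpos n).ne']
    | succ r ih =>
      have h3 := (h1.comp (tendsto_add_atTop_nat r)).mul ih
      rw [mul_one] at h3
      refine h3.congr fun n => ?_
      simp only [Function.comp]
      have h4 := hpos (n + r)
      rw [div_mul_div_cancel₀ h4.ne']
      rfl
  have h3 := (h2 r).sub (tendsto_const_nhds (x := (1 : ℝ)))
  rw [sub_self] at h3
  refine h3.congr fun n => ?_
  rw [sub_div, div_self (hpos n).ne']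

/-- the elements of the ball in a class of a quotient -/
def part (X : Set G) (N : Subgroup G) (n : ℕ) (q : G ⧸ N) : Set G :=
  {g | g ∈ ball X n ∧ (QuotientGroup.mk g : G ⧸ N) = q}

theorem part_finite (hX : X.Finite) (N : Subgroup G) (n : ℕ) (q : G ⧸ N) :
    (part X N n q).Finite := (ball_finite hX n).subset fun _ h => h.1

theorem sum_part (hX : X.Finite) (N : Subgroup G) [Fintype (G ⧸ N)] (n : ℕ) :
    ∑ q : G ⧸ N, (part X N n q).ncard = (ball X n).ncard := by
  classical
  have h1 : ∀ q, (part X N n q).ncard = ((ball_finite hX n).toFinset.filter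
      fun g => (QuotientGroup.mk g : G ⧸ N) = q).card := by
    intro q
    rw [← Set.ncard_coe_finset]
    congr 1
    ext g
    simp [part]
  rw [Finset.sum_congr rfl fun q _ => h1 q, Set.ncard_eq_toFinset_card _ (ball_finite hX n)]
  exact (Finset.card_eq_sum_card_fiberwise (fun _ _ => Finset.mem_coe.mpr (Finset.mem_univ _))).symm

theorem exists_radius (hgen : Subgroup.closure X = ⊤) (N : Subgroup G) [Finite (G ⧸ N)] :
    ∃ r : ℕ, ∀ q : G ⧸ N, ∃ t ∈ ball X r, (QuotientGroup.mk t : G ⧸ N) = q := by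
  classical
  have hlen : ∀ g : G, ∃ n, g ∈ ball X n := by
    intro g
    have hg : g ∈ Subgroup.closure X := hgen ▸ Subgroup.mem_top g
    rw [← Subgroup.mem_toSubmonoid, Subgroup.closure_toSubmonoid] at hg
    obtain ⟨l, hl, hp⟩ := Submonoid.exists_list_of_mem_closure hg
    exact ⟨l.length, l, le_rfl, fun x hx => by simpa using hl x hx, hp⟩
  choose f hf using hlen
  have := Fintype.ofFinite (G ⧸ N)
  refine ⟨∑ q : G ⧸ N, f q.out, fun q => ⟨q.out, ?_, QuotientGroup.out_eq' q⟩⟩
  exact ball_mono X (Finset.single_le_sum (f := fun q : G ⧸ N => f q.out)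
    (fun _ _ => Nat.zero_le _) (Finset.mem_univ q)) (hf q.out)

/-- **Equidistribution** -/
theorem equi (hX : X.Finite) (hgen : Subgroup.closure X = ⊤)
    (hr : Tendsto (fun n => (((ball X (n + 1)).ncard : ℝ) - (ball X n).ncard) /
      (ball X (n + 1)).ncard) atTop (nhds 0)) (N : Subgroup G) [N.Normal] [N.FiniteIndex]
    (q : G ⧸ N) :
    Tendsto (fun n => ((part X N n q).ncard : ℝ) / (ball X n).ncard) atTop
      (𝓝 (1 / (Nat.card (G ⧸ N) : ℝ))) := by
  classical
  have hfin : Finite (G ⧸ N) := Subgroup.finite_quotient_of_finiteIndex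
  have hft := Fintype.ofFinite (G ⧸ N)
  obtain ⟨r, hrad⟩ := exists_radius hgen N
  have hpos : ∀ n, (0 : ℝ) < (ball X n).ncard := fun n => by exact_mod_cast ball_card_pos hX n
  have hm : (0 : ℝ) < Nat.card (G ⧸ N) := by exact_mod_cast Nat.card_pos
  have hcmp : ∀ n (q q' : G ⧸ N), (part X N n q).ncard ≤ (part X N (n + r) q').ncard := by
    intro n q q'
    obtain ⟨t, ht, htq⟩ := hrad (q⁻¹ * q')
    rw [← Set.ncard_image_of_injective _ (mul_left_injective t)]
    apply Set.ncard_le_ncard _ (part_finite hX N _ _)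
    rintro _ ⟨g, hg, rfl⟩
    refine ⟨mul_mem_ball X hg.1 ht, ?_⟩
    simp only [QuotientGroup.mk_mul]
    rw [htq, hg.2, mul_inv_cancel_left]
  have hmono : ∀ n (q : G ⧸ N), (part X N n q).ncard ≤ (part X N (n + r) q).ncard := by
    intro n q
    apply Set.ncard_le_ncard _ (part_finite hX N _ _)
    rintro g ⟨h1, h2⟩
    exact ⟨ball_mono X (by omega) h1, h2⟩
  have hsum : ∀ n, ∑ q : G ⧸ N, ((part X N n q).ncard : ℝ) = (ball X n).ncard := by
    intro n
    exact_mod_cast sum_part hX N n
  have hcardm : (Nat.card (G ⧸ N) : ℝ) = ∑ _q : G ⧸ N, (1 : ℝ) := by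
    rw [Finset.sum_const, Finset.card_univ, nsmul_eq_mul, mul_one, Nat.card_eq_fintype_card]
  have hbound : ∀ n, |(Nat.card (G ⧸ N) : ℝ) * (part X N n q).ncard - (ball X n).ncard| ≤
      (Nat.card (G ⧸ N) : ℝ) * ((ball X (n + r)).ncard - (ball X n).ncard) := by
    intro n
    have hm1 : (1 : ℝ) ≤ Nat.card (G ⧸ N) := by exact_mod_cast Nat.card_pos
    have hb0 : (0 : ℝ) ≤ ((ball X (n + r)).ncard : ℝ) - (ball X n).ncard := by
      have : ((ball X n).ncard : ℝ) ≤ (ball X (n + r)).ncard := by
        exact_mod_cast ball_card_mono hX (by omega)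
      linarith
    rw [abs_le]
    constructor
    · -- b(n) - m f_q(n) ≤ m (b(n+r) - b(n))
      have h1 : ((ball X n).ncard : ℝ) ≤ ∑ _q' : G ⧸ N, ((part X N (n + r) q).ncard : ℝ) := by
        rw [← hsum n]
        apply Finset.sum_le_sum
        intro q' _
        exact_mod_cast hcmp n q' q
      have h2 : ∑ _q' : G ⧸ N, ((part X N (n + r) q).ncard : ℝ) =
          Nat.card (G ⧸ N) * (part X N (n + r) q).ncard := by
        rw [hcardm, Finset.sum_mul]
        simp
      have h3 : ((part X N (n + r) q).ncard : ℝ) - (part X N n q).ncard ≤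
          (ball X (n + r)).ncard - (ball X n).ncard := by
        rw [← hsum, ← hsum, ← Finset.sum_sub_distrib]
        exact Finset.single_le_sum (f := fun q' : G ⧸ N => ((part X N (n + r) q').ncard : ℝ) -
          (part X N n q').ncard) (fun q' _ => by
            have : ((part X N n q').ncard : ℝ) ≤ (part X N (n + r) q').ncard := by
              exact_mod_cast hmono n q'
            linarith) (Finset.mem_univ q)
      rw [h2] at h1
      nlinarith
    · have h1 : (Nat.card (G ⧸ N) : ℝ) * (part X N n q).ncard ≤ (ball X (n + r)).ncard := by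
        rw [hcardm, Finset.sum_mul, ← hsum (n + r)]
        apply Finset.sum_le_sum
        intro q' _
        rw [one_mul]
        exact_mod_cast hcmp n q q'
      nlinarith
  have hlim := ratio_shift hX hr r
  rw [tendsto_iff_norm_sub_tendsto_zero]
  apply squeeze_zero (fun _ => norm_nonneg _) _ hlim
  intro n
  rw [Real.norm_eq_abs]
  have h1 := hbound n
  have h2 := hpos n
  have h3 : ((part X N n q).ncard : ℝ) / (ball X n).ncard - 1 / (Nat.card (G ⧸ N) : ℝ) =
      ((Nat.card (G ⧸ N) : ℝ) * (part X N n q).ncard - (ball X n).ncard) /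
        (Nat.card (G ⧸ N) * (ball X n).ncard) := by
    field_simp
  rw [h3, abs_div, abs_of_pos (mul_pos hm h2), div_le_div_iff₀ (mul_pos hm h2) h2]
  nlinarith

end Q29.TV
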