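import Pool.Agent.Q29.TV.Sub

/-!
# Counting the solutions above a pair of classes which is not good
-/

namespace Q29.TV

theorem count_aux {α : Type*} [Finite α] (S F : Set α) (p : ℕ) (f : ℕ → α → α)
    (h1 : ∀ x ∈ S, ∀ i < p, f i x ∈ F)
    (h2 : ∀ x ∈ S, ∀ y ∈ S, ∀ i < p, ∀ j < p, f i x = f j y → x = y ∧ i = j) :
    p * S.ncard ≤ F.ncard := by
  have h3 : (S ×ˢ Set.Iio p).ncard = S.ncard * p := by
    rw [Set.ncard_prod]
    congr 1
    rw [← Finset.coe_range, Set.ncard_coe_finset, Finset.card_range]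
  rw [mul_comm, ← h3]
  apply Set.ncard_le_ncard_of_injOn (fun z => f z.2 z.1) _ _ (Set.toFinite F)
  · rintro ⟨x, i⟩ ⟨hx, hi⟩
    exact h1 x hx i hi
  · rintro ⟨x, i⟩ ⟨hx, hi⟩ ⟨y, j⟩ ⟨hy, hj⟩ hxy
    obtain ⟨h4, h5⟩ := h2 x hx y hy i hi j hj hxy
    exact Prod.ext h4 h5

theorem pow_ne_one_of_lt {Q : Type*} [Group Q] {w : Q} {p k : ℕ} (hp : p.Prime)
    (hwp : w ^ p = 1) (hw : w ≠ 1) (hk0 : 0 < k) (hkp : k < p) : w ^ k ≠ 1 := by
  intro h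
  have h1 : orderOf w ∣ p := orderOf_dvd_of_pow_eq_one hwp
  have h2 : orderOf w ∣ k := orderOf_dvd_of_pow_eq_one h
  rcases (Nat.dvd_prime hp).mp h1 with h3 | h3
  · exact hw (orderOf_eq_one_iff.mp h3)
  · rw [h3] at h2
    exact absurd (Nat.le_of_dvd hk0 h2) (by omega)

theorem nr1 {Q : Type*} [Group Q] (ψ : Q →* Q) {u v α : Q} {k : ℕ} (h1 : u * v = v * ψ u)
    (h2 : (u * α ^ k) * v = v * ψ (u * α ^ k)) (hc : Commute (v⁻¹ * α * v) (ψ α)) :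
    (v⁻¹ * α * v * (ψ α)⁻¹) ^ k = 1 := by
  have h3 : v⁻¹ * α ^ k * v = (ψ α) ^ k := by
    rw [map_mul, map_pow] at h2
    have h4 : u * (α ^ k * v) = u * (v * ψ α ^ k) := by
      rw [← mul_assoc, h2, ← mul_assoc, ← mul_assoc, ← h1]
    have h5 := mul_left_cancel h4
    rw [mul_assoc, h5, inv_mul_cancel_left]
  have h6 : (v⁻¹ * α * v) ^ k = v⁻¹ * α ^ k * v := by
    have := conj_pow (a := v⁻¹) (b := α) (i := k)
    rwa [inv_inv] at this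
  rw [(hc.inv_right).mul_pow, inv_pow, h6, h3, mul_inv_cancel]

theorem nr2 {Q : Type*} [Group Q] (ψ : Q →* Q) {u v β : Q} {k : ℕ} (h1 : u * v = v * ψ u)
    (h2 : u * (v * β ^ k) = (v * β ^ k) * ψ u) (hc : Commute β ((ψ u)⁻¹ * β * ψ u)) :
    (β⁻¹ * ((ψ u)⁻¹ * β * ψ u)) ^ k = 1 := by
  have h3 : ψ u * β ^ k = β ^ k * ψ u := by
    rw [← mul_assoc, h1, mul_assoc, mul_assoc] at h2
    exact mul_left_cancel h2
  have h6 : ((ψ u)⁻¹ * β * ψ u) ^ k = (ψ u)⁻¹ * β ^ k * ψ u := by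
    have := conj_pow (a := (ψ u)⁻¹) (b := β) (i := k)
    rwa [inv_inv] at this
  rw [(hc.inv_left).mul_pow, inv_pow, h6, mul_assoc, ← h3, inv_mul_cancel_left, inv_mul_cancel]

variable {G : Type*} [Group G]

/-- the pairs of classes modulo `N` above a pair of classes modulo `A` -/
def Fib (N A : Subgroup G) [N.Normal] [A.Normal] (hNA : N ≤ A) (s t : G ⧸ A) :
    Set ((G ⧸ N) × (G ⧸ N)) :=
  {w | QuotientGroup.map N A (MonoidHom.id G) hNA w.1 = s ∧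
    QuotientGroup.map N A (MonoidHom.id G) hNA w.2 = t}

/-- the solutions among them -/
def Sol (N A : Subgroup G) [N.Normal] [A.Normal] (hNA : N ≤ A) {φ : G →* G}
    (h : N ≤ N.comap φ) (s t : G ⧸ A) : Set ((G ⧸ N) × (G ⧸ N)) :=
  {w | w ∈ Fib N A hNA s t ∧ w.1 * w.2 = w.2 * QuotientGroup.map N N φ h w.1}

theorem conj_eq {A : Subgroup G} [hn : A.Normal] (hA : ∀ a ∈ A, ∀ b ∈ A, a * b = b * a)
    {h0 y a : G} (ha : a ∈ A) (hy : (y : G ⧸ A) = h0) : y⁻¹ * a * y = h0⁻¹ * a * h0 := by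
  have h1 : h0⁻¹ * y ∈ A := QuotientGroup.eq.mp hy.symm
  have h2 : h0⁻¹ * a * h0 ∈ A := by
    have := hn.conj_mem a ha h0⁻¹
    rwa [inv_inv] at this
  have h3 := hA _ h1 _ h2
  have h4 : y = h0 * (h0⁻¹ * y) := by group
  have h5 : y⁻¹ * a * y = (h0⁻¹ * y)⁻¹ * ((h0⁻¹ * a * h0) * (h0⁻¹ * y)) := by group
  rw [h5, ← h3, inv_mul_cancel_left]

section

variable {N A : Subgroup G} [N.Normal] [hAn : A.Normal] [N.FiniteIndex] (hNA : N ≤ A)
  (hA : ∀ a ∈ A, ∀ b ∈ A, a * b = b * a) {φ : G →* G} (h : N ≤ N.comap φ)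
  (hAφ : A ≤ A.comap φ) {p : ℕ} (hp : p.Prime) (hpN : ∀ a ∈ A, a ^ p ∈ N)

include hA hAφ hp hpN in
theorem case1 {g0 h0 a : G} (ha : a ∈ A) (hw : h0⁻¹ * a * h0 * (φ a)⁻¹ ∉ N) :
    p * (Sol N A hNA h (g0 : G ⧸ A) (h0 : G ⧸ A)).ncard ≤
      (Fib N A hNA (g0 : G ⧸ A) (h0 : G ⧸ A)).ncard := by
  have hfin : Finite (G ⧸ N) := Subgroup.finite_quotient_of_finiteIndex
  have hφa : φ a ∈ A := hAφ ha
  have key : ∀ (u u' v : G ⧸ N) (k : ℕ), (u, v) ∈ Sol N A hNA h (g0 : G ⧸ A) (h0 : G ⧸ A) →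
      (u', v) ∈ Sol N A hNA h (g0 : G ⧸ A) (h0 : G ⧸ A) → u' = u * (a : G ⧸ N) ^ k →
      k < p → k = 0 := by
    intro u u' v k hu hu' huu' hk
    by_contra hk0
    obtain ⟨y, rfl⟩ := QuotientGroup.mk_surjective v
    have hy : (y : G ⧸ A) = h0 := hu.1.2
    have h1 : y⁻¹ * a * y = h0⁻¹ * a * h0 := conj_eq hA ha hy
    have h2 : h0⁻¹ * a * h0 ∈ A := by
      have := hAn.conj_mem a ha h0⁻¹
      rwa [inv_inv] at this
    have hc : Commute ((y : G ⧸ N)⁻¹ * (a : G ⧸ N) * (y : G ⧸ N))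
        (QuotientGroup.map N N φ h (a : G ⧸ N)) := by
      rw [← QuotientGroup.mk_inv, ← QuotientGroup.mk_mul, ← QuotientGroup.mk_mul, h1]
      exact congrArg (QuotientGroup.mk (s := N)) (hA _ h2 _ hφa)
    have h3 : (u * (a : G ⧸ N) ^ k) * (y : G ⧸ N) =
        (y : G ⧸ N) * QuotientGroup.map N N φ h (u * (a : G ⧸ N) ^ k) := by
      rw [← huu']
      exact hu'.2
    have h4 := nr1 (QuotientGroup.map N N φ h) hu.2 h3 hc
    have h5 : (y : G ⧸ N)⁻¹ * (a : G ⧸ N) * (y : G ⧸ N) *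
        (QuotientGroup.map N N φ h (a : G ⧸ N))⁻¹ =
        ((h0⁻¹ * a * h0 * (φ a)⁻¹ : G) : G ⧸ N) := by
      rw [← h1]
      rfl
    rw [h5] at h4
    refine pow_ne_one_of_lt hp ?_ ?_ (Nat.pos_of_ne_zero hk0) hk h4
    · rw [← QuotientGroup.mk_pow, QuotientGroup.eq_one_iff]
      exact hpN _ (mul_mem h2 (inv_mem hφa))
    · rw [Ne, QuotientGroup.eq_one_iff]
      exact hw
  apply count_aux _ _ p (fun i w => (w.1 * (a : G ⧸ N) ^ i, w.2))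
  · rintro ⟨u, v⟩ ⟨⟨hu1, hu2⟩, _⟩ i _
    refine ⟨?_, hu2⟩
    simp only [map_mul, map_pow]
    rw [hu1]
    have : QuotientGroup.map N A (MonoidHom.id G) hNA (a : G ⧸ N) = 1 :=
      (QuotientGroup.eq_one_iff a).mpr ha
    rw [this, one_pow, mul_one]
  · rintro ⟨u, v⟩ hu ⟨u', v'⟩ hu' i hi j hj huu'
    obtain ⟨h1, h2⟩ := Prod.mk.inj huu'
    simp only at h1 h2
    subst h2
    rcases le_total i j with hij | hij
    · have h3 : u = u' * (a : G ⧸ N) ^ (j - i) := by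
        have h4 : u * (a : G ⧸ N) ^ i = u' * (a : G ⧸ N) ^ (j - i) * (a : G ⧸ N) ^ i := by
          rw [mul_assoc, ← pow_add, Nat.sub_add_cancel hij]
          exact h1
        exact mul_right_cancel h4
      have h4 := key u' u v (j - i) hu' hu h3 (by omega)
      rw [h4, pow_zero, mul_one] at h3
      exact ⟨by rw [h3], by omega⟩
    · have h3 : u' = u * (a : G ⧸ N) ^ (i - j) := by
        have h4 : u' * (a : G ⧸ N) ^ j = u * (a : G ⧸ N) ^ (i - j) * (a : G ⧸ N) ^ j := by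
          rw [mul_assoc, ← pow_add, Nat.sub_add_cancel hij]
          exact h1.symm
        exact mul_right_cancel h4
      have h4 := key u u' v (i - j) hu hu' h3 (by omega)
      rw [h4, pow_zero, mul_one] at h3
      exact ⟨by rw [h3], by omega⟩

include hA hAφ hp hpN in
theorem case2 {g0 h0 b : G} (hb : b ∈ A) (hw : b⁻¹ * ((φ g0)⁻¹ * b * φ g0) ∉ N) :
    p * (Sol N A hNA h (g0 : G ⧸ A) (h0 : G ⧸ A)).ncard ≤
      (Fib N A hNA (g0 : G ⧸ A) (h0 : G ⧸ A)).ncard := by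
  have hfin : Finite (G ⧸ N) := Subgroup.finite_quotient_of_finiteIndex
  have key : ∀ (u v v' : G ⧸ N) (k : ℕ), (u, v) ∈ Sol N A hNA h (g0 : G ⧸ A) (h0 : G ⧸ A) →
      (u, v') ∈ Sol N A hNA h (g0 : G ⧸ A) (h0 : G ⧸ A) → v' = v * (b : G ⧸ N) ^ k →
      k < p → k = 0 := by
    intro u v v' k hu hu' huu' hk
    by_contra hk0
    obtain ⟨x, rfl⟩ := QuotientGroup.mk_surjective u
    have hx : (x : G ⧸ A) = g0 := hu.1.1
    have hφx : ((φ x : G) : G ⧸ A) = φ g0 := by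
      have h0 : x⁻¹ * g0 ∈ A := QuotientGroup.eq.mp hx
      apply QuotientGroup.eq.mpr
      rw [← map_inv, ← map_mul]
      exact hAφ h0
    have h1 : (φ x)⁻¹ * b * φ x = (φ g0)⁻¹ * b * φ g0 := conj_eq hA hb hφx
    have h2 : (φ g0)⁻¹ * b * φ g0 ∈ A := by
      have := hAn.conj_mem b hb (φ g0)⁻¹
      rwa [inv_inv] at this
    have hψ : QuotientGroup.map N N φ h (x : G ⧸ N) = ((φ x : G) : G ⧸ N) := rfl
    have hc : Commute (b : G ⧸ N) ((QuotientGroup.map N N φ h (x : G ⧸ N))⁻¹ * (b : G ⧸ N) *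
        (QuotientGroup.map N N φ h (x : G ⧸ N))) := by
      rw [hψ, ← QuotientGroup.mk_inv, ← QuotientGroup.mk_mul, ← QuotientGroup.mk_mul, h1]
      exact congrArg (QuotientGroup.mk (s := N)) (hA _ hb _ h2)
    have h3 : (x : G ⧸ N) * (v * (b : G ⧸ N) ^ k) = (v * (b : G ⧸ N) ^ k) *
        QuotientGroup.map N N φ h (x : G ⧸ N) := by
      rw [← huu']
      exact hu'.2
    have h4 := nr2 (QuotientGroup.map N N φ h) hu.2 h3 hc
    have h5 : (b : G ⧸ N)⁻¹ * ((QuotientGroup.map N N φ h (x : G ⧸ N))⁻¹ * (b : G ⧸ N) *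
        (QuotientGroup.map N N φ h (x : G ⧸ N))) =
        ((b⁻¹ * ((φ g0)⁻¹ * b * φ g0) : G) : G ⧸ N) := by
      rw [← h1]
      rfl
    rw [h5] at h4
    refine pow_ne_one_of_lt hp ?_ ?_ (Nat.pos_of_ne_zero hk0) hk h4
    · rw [← QuotientGroup.mk_pow, QuotientGroup.eq_one_iff]
      exact hpN _ (mul_mem (inv_mem hb) h2)
    · rw [Ne, QuotientGroup.eq_one_iff]
      exact hw
  apply count_aux _ _ p (fun i w => (w.1, w.2 * (b : G ⧸ N) ^ i))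
  · rintro ⟨u, v⟩ ⟨⟨hu1, hu2⟩, _⟩ i _
    refine ⟨hu1, ?_⟩
    simp only [map_mul, map_pow]
    rw [hu2]
    have : QuotientGroup.map N A (MonoidHom.id G) hNA (b : G ⧸ N) = 1 :=
      (QuotientGroup.eq_one_iff b).mpr hb
    rw [this, one_pow, mul_one]
  · rintro ⟨u, v⟩ hu ⟨u', v'⟩ hu' i hi j hj huu'
    obtain ⟨h2, h1⟩ := Prod.mk.inj huu'
    simp only at h1 h2
    subst h2
    rcases le_total i j with hij | hij
    · have h3 : v = v' * (b : G ⧸ N) ^ (j - i) := by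
        have h4 : v * (b : G ⧸ N) ^ i = v' * (b : G ⧸ N) ^ (j - i) * (b : G ⧸ N) ^ i := by
          rw [mul_assoc, ← pow_add, Nat.sub_add_cancel hij]
          exact h1
        exact mul_right_cancel h4
      have h4 := key u v' v (j - i) hu' hu h3 (by omega)
      rw [h4, pow_zero, mul_one] at h3
      exact ⟨by rw [h3], by omega⟩
    · have h3 : v' = v * (b : G ⧸ N) ^ (i - j) := by
        have h4 : v' * (b : G ⧸ N) ^ j = v * (b : G ⧸ N) ^ (i - j) * (b : G ⧸ N) ^ j := by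
          rw [mul_assoc, ← pow_add, Nat.sub_add_cancel hij]
          exact h1.symm
        exact mul_right_cancel h4
      have h4 := key u v v' (i - j) hu hu' h3 (by omega)
      rw [h4, pow_zero, mul_one] at h3
      exact ⟨by rw [h3], by omega⟩

end

section

variable {A : Subgroup G} {φ : G →* G} (hA : ∀ a ∈ A, ∀ b ∈ A, a * b = b * a)
  (hAφ : A ≤ A.comap φ) {g0 h0 : G} (h1 : ∀ a ∈ A, h0⁻¹ * a * h0 = φ a)
  (h2 : ∀ b ∈ A, b⁻¹ * ((φ g0)⁻¹ * b * φ g0) = 1)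

include hA hAφ h1 h2

/-- the computation behind the third case and behind the good pairs -/
theorem case3_aux {a b : G} (ha : a ∈ A) (hb : b ∈ A) :
    ((h0 * b) * φ (g0 * a))⁻¹ * ((g0 * a) * (h0 * b)) =
      (φ a * b)⁻¹ * ((φ g0)⁻¹ * (h0⁻¹ * g0 * h0)) * (φ a * b) := by
  have h3 : (g0 * a) * (h0 * b) = g0 * h0 * (φ a * b) := by
    rw [← h1 a ha]
    group
  have h4 : (h0 * b) * φ (g0 * a) = h0 * φ g0 * (φ a * b) := by
    rw [map_mul]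
    have h5 : b * φ g0 = φ g0 * b := by
      have h7 := inv_mul_eq_one.mp (h2 b hb)
      have h8 : φ g0 * b = φ g0 * ((φ g0)⁻¹ * b * φ g0) := by rw [← h7]
      rw [h8]
      group
    have h6 := hA b hb (φ a) (hAφ ha)
    calc h0 * b * (φ g0 * φ a) = h0 * (b * φ g0) * φ a := by group
      _ = h0 * φ g0 * (b * φ a) := by rw [h5]; group
      _ = h0 * φ g0 * (φ a * b) := by rw [h6]
  rw [h3, h4]
  group

theorem good_of (hd : (φ g0)⁻¹ * (h0⁻¹ * g0 * h0) = 1) (x y : G) (hx : (x : G ⧸ A) = g0)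
    (hy : (y : G ⧸ A) = h0) : x * y = y * φ x := by
  have hx' : g0⁻¹ * x ∈ A := QuotientGroup.eq.mp hx.symm
  have hy' : h0⁻¹ * y ∈ A := QuotientGroup.eq.mp hy.symm
  have h3 := case3_aux hA hAφ h1 h2 hx' hy'
  rw [hd, mul_one, inv_mul_cancel, mul_inv_cancel_left, mul_inv_cancel_left] at h3
  exact (inv_mul_eq_one.mp h3).symm

theorem case3 {N : Subgroup G} [hN : N.Normal] [hAn : A.Normal] (hNA : N ≤ A)
    (h : N ≤ N.comap φ) (hd : (φ g0)⁻¹ * (h0⁻¹ * g0 * h0) ∉ N) :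
    Sol N A hNA h (g0 : G ⧸ A) (h0 : G ⧸ A) = ∅ := by
  rw [Set.eq_empty_iff_forall_notMem]
  rintro ⟨u, v⟩ ⟨⟨hu1, hu2⟩, hu3⟩
  obtain ⟨x, rfl⟩ := QuotientGroup.mk_surjective u
  obtain ⟨y, rfl⟩ := QuotientGroup.mk_surjective v
  have hx : (x : G ⧸ A) = g0 := hu1
  have hy : (y : G ⧸ A) = h0 := hu2
  have hx' : g0⁻¹ * x ∈ A := QuotientGroup.eq.mp hx.symm
  have hy' : h0⁻¹ * y ∈ A := QuotientGroup.eq.mp hy.symm
  have h3 := case3_aux hA hAφ h1 h2 hx' hy'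
  rw [mul_inv_cancel_left, mul_inv_cancel_left] at h3
  have h4 : ((x * y : G) : G ⧸ N) = ((y * φ x : G) : G ⧸ N) := hu3
  have h5 : (y * φ x)⁻¹ * (x * y) ∈ N := QuotientGroup.eq.mp h4.symm
  rw [h3] at h5
  apply hd
  have h6 := hN.conj_mem _ h5 (φ (g0⁻¹ * x) * (h0⁻¹ * y))
  have h7 : ∀ c d : G, c * (c⁻¹ * d * c) * c⁻¹ = d := fun c d => by group
  rwa [h7] at h6

end

/-- **Pairs which are not good have few solutions modulo large primes** -/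
theorem bad {A : Subgroup G} [hAn : A.Normal] [A.FiniteIndex] [Group.FG G]
    (hA : ∀ a ∈ A, ∀ b ∈ A, a * b = b * a) {φ : G →* G} (hAφ : A ≤ A.comap φ)
    {j : Type} {F : A →* (j → Multiplicative ℤ)} (hF : Function.Injective F) (s t : G ⧸ A)
    (hbad : ¬ ∀ x y : G, (x : G ⧸ A) = s → (y : G ⧸ A) = t → x * y = y * φ x) :
    ∃ P : ℕ, ∀ p, P < p → p.Prime → ∀ (N : Subgroup G) [N.Normal] [N.FiniteIndex]
      (hNA : N ≤ A) (h : N ≤ N.comap φ), N = pw A hA p →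
      p * (Sol N A hNA h s t).ncard ≤ (Fib N A hNA s t).ncard := by
  obtain ⟨g0, rfl⟩ := QuotientGroup.mk_surjective s
  obtain ⟨h0, rfl⟩ := QuotientGroup.mk_surjective t
  by_cases c1 : ∃ a ∈ A, h0⁻¹ * a * h0 * (φ a)⁻¹ ≠ 1
  · obtain ⟨a, ha, hw⟩ := c1
    obtain ⟨P, hP⟩ := not_mem_pw hF hA hw
    refine ⟨P, fun p hp hpp N _ _ hNA h hN => ?_⟩
    exact case1 hNA hA h hAφ hpp (fun a ha => hN ▸ ⟨a, ha, rfl⟩) ha (hN ▸ hP p hp)
  by_cases c2 : ∃ b ∈ A, b⁻¹ * ((φ g0)⁻¹ * b * φ g0) ≠ 1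
  · obtain ⟨b, hb, hw⟩ := c2
    obtain ⟨P, hP⟩ := not_mem_pw hF hA hw
    refine ⟨P, fun p hp hpp N _ _ hNA h hN => ?_⟩
    exact case2 hNA hA h hAφ hpp (fun a ha => hN ▸ ⟨a, ha, rfl⟩) hb (hN ▸ hP p hp)
  push Not at c1 c2
  have h1 : ∀ a ∈ A, h0⁻¹ * a * h0 = φ a := fun a ha => mul_inv_eq_one.mp (c1 a ha)
  by_cases c3 : (φ g0)⁻¹ * (h0⁻¹ * g0 * h0) = 1
  · exact absurd (good_of hA hAφ h1 c2 c3) hbad
  · obtain ⟨P, hP⟩ := not_mem_pw hF hA c3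
    refine ⟨P, fun p hp hpp N _ _ hNA h hN => ?_⟩
    rw [case3 hA hAφ h1 c2 hNA h (hN ▸ hP p hp)]
    simp

end Q29.TV
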