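import Pool.Agent.Q29.TV.Equi
import Pool.Agent.Q29.TV.Fib

/-!
# The degree of twisted commutativity is computed by the finite quotients
-/

open Filter Topology

namespace Q29.TV

theorem sum_fiber {α β : Type*} [Fintype β] (f : α → β) (S : Set α) (hS : S.Finite) :
    S.ncard = ∑ b, {a | a ∈ S ∧ f a = b}.ncard := by
  classical
  have h1 : ∀ b, {a | a ∈ S ∧ f a = b}.ncard = (hS.toFinset.filter fun a => f a = b).card := by
    intro b
    rw [← Set.ncard_coe_finset]
    congr 1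
    ext a
    simp
  rw [Finset.sum_congr rfl fun b _ => h1 b, Set.ncard_eq_toFinset_card _ hS]
  exact Finset.card_eq_sum_card_fiberwise (fun _ _ => Finset.mem_coe.mpr (Finset.mem_univ _))

theorem fibre_card {Q R : Type*} [Group Q] [Group R] [Finite Q] (π : Q →* R)
    (hs : Function.Surjective π) (r : R) :
    {q | π q = r}.ncard * Nat.card R = Nat.card Q := by
  classical
  have hR : Finite R := Finite.of_surjective π hs
  have := Fintype.ofFinite R
  have h1 : ∀ r r' : R, {q | π q = r}.ncard ≤ {q | π q = r'}.ncard := by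
    intro r r'
    obtain ⟨x, hx⟩ := hs (r⁻¹ * r')
    rw [← Set.ncard_image_of_injective _ (mul_left_injective x)]
    apply Set.ncard_le_ncard _ (Set.toFinite _)
    rintro _ ⟨q, hq, rfl⟩
    simp only [Set.mem_ofPred_eq] at hq ⊢
    rw [map_mul, hq, hx, mul_inv_cancel_left]
  have h2 := sum_fiber π Set.univ Set.finite_univ
  simp only [Set.mem_univ, true_and] at h2
  rw [Set.ncard_univ] at h2
  rw [h2, Finset.sum_congr rfl fun r' _ => le_antisymm (h1 r' r) (h1 r r'), Finset.sum_const,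
    Finset.card_univ, Nat.card_eq_fintype_card, smul_eq_mul, mul_comm]

variable {G : Type*} [Group G]

/-- the good pairs of classes -/
def Good (φ : G →* G) (A : Subgroup G) : Set ((G ⧸ A) × (G ⧸ A)) :=
  {w | ∀ x y : G, (x : G ⧸ A) = w.1 → (y : G ⧸ A) = w.2 → x * y = y * φ x}

theorem fib_card (N A : Subgroup G) [N.Normal] [A.Normal] [N.FiniteIndex] (hNA : N ≤ A)
    (s t : G ⧸ A) :
    (Fib N A hNA s t).ncard * (Nat.card (G ⧸ A)) ^ 2 = Nat.card (G ⧸ N) ^ 2 := by
  have hfin : Finite (G ⧸ N) := Subgroup.finite_quotient_of_finiteIndex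
  have hs : Function.Surjective (QuotientGroup.map N A (MonoidHom.id G) hNA) := by
    intro q
    obtain ⟨x, rfl⟩ := QuotientGroup.mk_surjective q
    exact ⟨(x : G ⧸ N), rfl⟩
  have h1 : Fib N A hNA s t = {q | QuotientGroup.map N A (MonoidHom.id G) hNA q = s} ×ˢ
      {q | QuotientGroup.map N A (MonoidHom.id G) hNA q = t} := rfl
  rw [h1, Set.ncard_prod, sq, sq]
  calc _ = ({q | QuotientGroup.map N A (MonoidHom.id G) hNA q = s}.ncard * Nat.card (G ⧸ A)) *
        ({q | QuotientGroup.map N A (MonoidHom.id G) hNA q = t}.ncard * Nat.card (G ⧸ A)) := by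
        ring
    _ = _ := by rw [fibre_card _ hs, fibre_card _ hs]

theorem tdcFinite_le {N A : Subgroup G} [N.Normal] [A.Normal] [N.FiniteIndex] [A.FiniteIndex]
    (hNA : N ≤ A) {φ : G →* G} (h : N ≤ N.comap φ) {p : ℕ} (hp : 0 < p)
    (hbad : ∀ s t : G ⧸ A, (s, t) ∉ Good φ A →
      p * (Sol N A hNA h s t).ncard ≤ (Fib N A hNA s t).ncard) :
    tdcFinite (QuotientGroup.map N N φ h) ≤
      ((Good φ A).ncard : ℝ) / (Nat.card (G ⧸ A) : ℝ) ^ 2 + 1 / p := by
  classical
  have hfin : Finite (G ⧸ N) := Subgroup.finite_quotient_of_finiteIndex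
  have hfinA : Finite (G ⧸ A) := Subgroup.finite_quotient_of_finiteIndex
  have := Fintype.ofFinite (G ⧸ A)
  set ψ := QuotientGroup.map N N φ h with hψ
  set S : Set ((G ⧸ N) × (G ⧸ N)) := {w | w.1 * w.2 = w.2 * ψ w.1} with hS
  have hm : (0 : ℝ) < Nat.card (G ⧸ A) := by exact_mod_cast Nat.card_pos
  have hQ : (0 : ℝ) < Nat.card (G ⧸ N) := by exact_mod_cast Nat.card_pos
  have hpr : (0 : ℝ) < p := by exact_mod_cast hp
  have h1 : S.ncard = ∑ b : (G ⧸ A) × (G ⧸ A), (Sol N A hNA h b.1 b.2).ncard := by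
    rw [sum_fiber (fun w : (G ⧸ N) × (G ⧸ N) =>
      (QuotientGroup.map N A (MonoidHom.id G) hNA w.1,
        QuotientGroup.map N A (MonoidHom.id G) hNA w.2)) S (Set.toFinite _)]
    refine Finset.sum_congr rfl fun b _ => ?_
    congr 1
    ext w
    constructor
    · rintro ⟨h2, h3⟩
      exact ⟨⟨congrArg Prod.fst h3, congrArg Prod.snd h3⟩, h2⟩
    · rintro ⟨⟨h2, h3⟩, h4⟩
      exact ⟨h4, Prod.ext h2 h3⟩
  have h2 : ∀ b : (G ⧸ A) × (G ⧸ A), ((Sol N A hNA h b.1 b.2).ncard : ℝ) ≤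
      (Nat.card (G ⧸ N) : ℝ) ^ 2 / (Nat.card (G ⧸ A) : ℝ) ^ 2 *
        ((if b ∈ Good φ A then 1 else 0) + 1 / p) := by
    intro b
    have h3 : ((Fib N A hNA b.1 b.2).ncard : ℝ) =
        (Nat.card (G ⧸ N) : ℝ) ^ 2 / (Nat.card (G ⧸ A) : ℝ) ^ 2 := by
      rw [eq_div_iff (by positivity)]
      exact_mod_cast fib_card N A hNA b.1 b.2
    rw [← h3]
    split_ifs with hb
    · have h4 : ((Sol N A hNA h b.1 b.2).ncard : ℝ) ≤ (Fib N A hNA b.1 b.2).ncard := by
        have h6 : Sol N A hNA h b.1 b.2 ⊆ Fib N A hNA b.1 b.2 := fun w hw => hw.1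
        exact_mod_cast Set.ncard_le_ncard h6 (Set.toFinite _)
      have h5 : (0 : ℝ) ≤ (Fib N A hNA b.1 b.2).ncard * (1 / p) := by positivity
      linarith
    · have h4 : (p : ℝ) * (Sol N A hNA h b.1 b.2).ncard ≤ (Fib N A hNA b.1 b.2).ncard := by
        exact_mod_cast hbad b.1 b.2 hb
      rw [zero_add, mul_one_div, le_div_iff₀ hpr, mul_comm]
      exact h4
  have h3 : (S.ncard : ℝ) ≤ (Nat.card (G ⧸ N) : ℝ) ^ 2 / (Nat.card (G ⧸ A) : ℝ) ^ 2 *
      ((Good φ A).ncard + (Nat.card (G ⧸ A) : ℝ) ^ 2 * (1 / p)) := by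
    rw [h1]
    push_cast
    refine (Finset.sum_le_sum fun b _ => h2 b).trans (le_of_eq ?_)
    rw [← Finset.mul_sum, Finset.sum_add_distrib]
    congr 2
    · rw [Finset.sum_boole, Set.ncard_eq_toFinset_card (Good φ A) (Set.toFinite _)]
      congr 2
      ext w
      simp
    · rw [Finset.sum_const, Finset.card_univ, Fintype.card_prod, ← Nat.card_eq_fintype_card,
        nsmul_eq_mul]
      push_cast
      ring
  unfold tdcFinite
  rw [div_le_iff₀ (by positivity)]
  refine h3.trans (le_of_eq ?_)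
  field_simp

/-- the pairs counted in the definition of `tdc` -/
def E (φ : G →* G) (X : Set G) (n : ℕ) : Set (G × G) :=
  {p : G × G | p.1 ∈ ball X n ∧ p.2 ∈ ball X n ∧ p.1 * p.2 = p.2 * φ p.1}

theorem E_sub (φ : G →* G) (X : Set G) (n : ℕ) : E φ X n ⊆ ball X n ×ˢ ball X n :=
  fun _ h => ⟨h.1, h.2.1⟩

theorem E_finite {X : Set G} (hX : X.Finite) (φ : G →* G) (n : ℕ) : (E φ X n).Finite :=
  ((ball_finite hX n).prod (ball_finite hX n)).subset (E_sub φ X n)

theorem ratio_bdd {X : Set G} (hX : X.Finite) (φ : G →* G) (n : ℕ) :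
    ((E φ X n).ncard : ℝ) / ((ball X n).ncard : ℝ) ^ 2 ≤ 1 := by
  have hpos : (0 : ℝ) < (ball X n).ncard := by exact_mod_cast ball_card_pos hX n
  rw [div_le_one (by positivity)]
  have h1 := Set.ncard_le_ncard (E_sub φ X n) ((ball_finite hX n).prod (ball_finite hX n))
  rw [Set.ncard_prod, ← sq] at h1
  exact_mod_cast h1

theorem sum_tendsto {X : Set G} (hX : X.Finite) (hgen : Subgroup.closure X = ⊤)
    (hr : Tendsto (fun n => (((ball X (n + 1)).ncard : ℝ) - (ball X n).ncard) /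
      (ball X (n + 1)).ncard) atTop (nhds 0)) (N : Subgroup G) [N.Normal] [N.FiniteIndex]
    (W : Finset ((G ⧸ N) × (G ⧸ N))) :
    Tendsto (fun n => (∑ w ∈ W, ((part X N n w.1).ncard * (part X N n w.2).ncard : ℝ)) /
      ((ball X n).ncard : ℝ) ^ 2) atTop (𝓝 ((W.card : ℝ) / (Nat.card (G ⧸ N) : ℝ) ^ 2)) := by
  have h1 : Tendsto (fun n => ∑ w ∈ W, (((part X N n w.1).ncard : ℝ) / (ball X n).ncard) *
      (((part X N n w.2).ncard : ℝ) / (ball X n).ncard)) atTop
      (𝓝 (∑ w ∈ W, (1 / (Nat.card (G ⧸ N) : ℝ)) * (1 / (Nat.card (G ⧸ N) : ℝ)))) := by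
    apply tendsto_finsetSum
    intro w _
    exact (equi hX hgen hr N w.1).mul (equi hX hgen hr N w.2)
  rw [Finset.sum_const, nsmul_eq_mul] at h1
  have h2 : (W.card : ℝ) * (1 / (Nat.card (G ⧸ N) : ℝ) * (1 / (Nat.card (G ⧸ N) : ℝ))) =
      (W.card : ℝ) / (Nat.card (G ⧸ N) : ℝ) ^ 2 := by
    rw [div_mul_div_comm, one_mul, mul_one_div, ← sq]
  rw [h2] at h1
  refine h1.congr fun n => ?_
  rw [Finset.sum_div]
  refine Finset.sum_congr rfl fun w _ => ?_
  rw [div_mul_div_comm, ← sq]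

theorem upper {X : Set G} (hX : X.Finite) (hgen : Subgroup.closure X = ⊤)
    (hr : Tendsto (fun n => (((ball X (n + 1)).ncard : ℝ) - (ball X n).ncard) /
      (ball X (n + 1)).ncard) atTop (nhds 0)) (φ : G →* G) (N : Subgroup G) [N.Normal]
    [N.FiniteIndex] (h : N ≤ N.comap φ) :
    tdc φ X ≤ tdcFinite (QuotientGroup.map N N φ h) := by
  classical
  have hfin : Finite (G ⧸ N) := Subgroup.finite_quotient_of_finiteIndex
  have := Fintype.ofFinite (G ⧸ N)
  set ψ := QuotientGroup.map N N φ h with hψ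
  set S : Set ((G ⧸ N) × (G ⧸ N)) := {w | w.1 * w.2 = w.2 * ψ w.1} with hS
  set W : Finset ((G ⧸ N) × (G ⧸ N)) := (Set.toFinite S).toFinset with hW
  have hlim := sum_tendsto hX hgen hr N W
  have hWc : (W.card : ℝ) / (Nat.card (G ⧸ N) : ℝ) ^ 2 = tdcFinite ψ := by
    unfold tdcFinite
    rw [hW, ← Set.ncard_eq_toFinset_card]
  rw [hWc] at hlim
  have hle : ∀ n, ((E φ X n).ncard : ℝ) / ((ball X n).ncard : ℝ) ^ 2 ≤
      (∑ w ∈ W, ((part X N n w.1).ncard * (part X N n w.2).ncard : ℝ)) /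
        ((ball X n).ncard : ℝ) ^ 2 := by
    intro n
    apply div_le_div_of_nonneg_right _ (by positivity)
    have h1 := sum_fiber (fun z : G × G => ((z.1 : G ⧸ N), (z.2 : G ⧸ N))) (E φ X n)
      (E_finite hX φ n)
    have h2 : ∑ b, {a | a ∈ E φ X n ∧ (fun z : G × G => ((z.1 : G ⧸ N), (z.2 : G ⧸ N))) a = b}.ncard
        ≤ ∑ w ∈ W, ((part X N n w.1).ncard * (part X N n w.2).ncard) := by
      rw [← Finset.sum_subset (Finset.subset_univ W)]
      · apply Finset.sum_le_sum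
        intro w _
        rw [← Set.ncard_prod]
        apply Set.ncard_le_ncard _ ((part_finite hX N n _).prod (part_finite hX N n _))
        rintro ⟨x, y⟩ ⟨⟨h3, h4, _⟩, h5⟩
        exact ⟨⟨h3, congrArg Prod.fst h5⟩, ⟨h4, congrArg Prod.snd h5⟩⟩
      · intro w _ hw
        rw [Set.ncard_eq_zero (((E_finite hX φ n)).subset fun _ h => h.1),
          Set.eq_empty_iff_forall_notMem]
        rintro ⟨x, y⟩ ⟨⟨_, _, h3⟩, rfl⟩
        apply hw
        rw [hW, Set.Finite.mem_toFinset, hS]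
        simp only [Set.mem_ofPred_eq]
        have h4 := congrArg (QuotientGroup.mk (s := N)) h3
        exact h4
    rw [← h1] at h2
    exact_mod_cast h2
  have h1 : tdc φ X ≤ limsup (fun n => (∑ w ∈ W,
      ((part X N n w.1).ncard * (part X N n w.2).ncard : ℝ)) / ((ball X n).ncard : ℝ) ^ 2)
      atTop := by
    refine limsup_le_limsup (Eventually.of_forall hle) ?_ ?_
    · exact (isBoundedUnder_of ⟨0, fun n => by positivity⟩ :
        IsBoundedUnder (· ≥ ·) atTop _).isCoboundedUnder_le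
    · exact hlim.isBoundedUnder_le
  rw [hlim.limsup_eq] at h1
  exact h1

theorem lower {X : Set G} (hX : X.Finite) (hgen : Subgroup.closure X = ⊤)
    (hr : Tendsto (fun n => (((ball X (n + 1)).ncard : ℝ) - (ball X n).ncard) /
      (ball X (n + 1)).ncard) atTop (nhds 0)) (φ : G →* G) (A : Subgroup G) [A.Normal]
    [A.FiniteIndex] :
    ((Good φ A).ncard : ℝ) / (Nat.card (G ⧸ A) : ℝ) ^ 2 ≤ tdc φ X := by
  classical
  have hfin : Finite (G ⧸ A) := Subgroup.finite_quotient_of_finiteIndex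
  have := Fintype.ofFinite (G ⧸ A)
  set W : Finset ((G ⧸ A) × (G ⧸ A)) := (Set.toFinite (Good φ A)).toFinset with hW
  have hlim := sum_tendsto hX hgen hr A W
  have hWc : (W.card : ℝ) = (Good φ A).ncard := by
    rw [hW, ← Set.ncard_eq_toFinset_card]
  rw [hWc] at hlim
  have hle : ∀ n, (∑ w ∈ W, ((part X A n w.1).ncard * (part X A n w.2).ncard : ℝ)) /
        ((ball X n).ncard : ℝ) ^ 2 ≤ ((E φ X n).ncard : ℝ) / ((ball X n).ncard : ℝ) ^ 2 := by
    intro n
    apply div_le_div_of_nonneg_right _ (by positivity)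
    have h1 := sum_fiber (fun z : G × G => ((z.1 : G ⧸ A), (z.2 : G ⧸ A))) (E φ X n)
      (E_finite hX φ n)
    have h2 : ∑ w ∈ W, ((part X A n w.1).ncard * (part X A n w.2).ncard) ≤
        ∑ b, {a | a ∈ E φ X n ∧
          (fun z : G × G => ((z.1 : G ⧸ A), (z.2 : G ⧸ A))) a = b}.ncard := by
      refine (Finset.sum_le_sum fun w hw => ?_).trans
        (Finset.sum_le_sum_of_subset (Finset.subset_univ W))
      rw [← Set.ncard_prod]
      apply Set.ncard_le_ncard _ ((E_finite hX φ n).subset fun _ h => h.1)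
      rintro ⟨x, y⟩ ⟨⟨h3, h4⟩, ⟨h5, h6⟩⟩
      rw [hW, Set.Finite.mem_toFinset] at hw
      exact ⟨⟨h3, h5, hw x y h4 h6⟩, Prod.ext h4 h6⟩
    rw [← h1] at h2
    exact_mod_cast h2
  have h1 : limsup (fun n => (∑ w ∈ W,
      ((part X A n w.1).ncard * (part X A n w.2).ncard : ℝ)) / ((ball X n).ncard : ℝ) ^ 2)
      atTop ≤ tdc φ X := by
    refine limsup_le_limsup (Eventually.of_forall hle) ?_ ?_
    · exact (isBoundedUnder_of ⟨0, fun n => by positivity⟩ :
        IsBoundedUnder (· ≥ ·) atTop _).isCoboundedUnder_le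
    · exact isBoundedUnder_of ⟨1, ratio_bdd hX φ⟩
  rw [hlim.limsup_eq] at h1
  exact h1

/-- **The degree of twisted commutativity is the infimum over the finite quotients.** -/
theorem main (hG : IsVirtuallyAbelian G) {X : Set G} (hX : X.Finite)
    (hgen : Subgroup.closure X = ⊤) (φ : G →* G) : tdc φ X = infQuotients φ := by
  classical
  have hfg : Group.FG G := (Group.fg_iff).mpr ⟨X, hgen, hX⟩
  obtain ⟨A, j, F, hAn, hAfi, hA, hinv, hF⟩ := exists_good hG
  have hfinA : Finite (G ⧸ A) := Subgroup.finite_quotient_of_finiteIndex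
  have := Fintype.ofFinite (G ⧸ A)
  have hAφ := hinv φ
  obtain ⟨K, hK⟩ := doubling hX hgen A hA
  have hr := ratio_of_doubling hX hK
  -- all the large primes
  have hbad : ∃ P : ℕ, ∀ p, P < p → p.Prime → ∀ (N : Subgroup G) [N.Normal] [N.FiniteIndex]
      (hNA : N ≤ A) (h : N ≤ N.comap φ), N = pw A hA p → ∀ s t : G ⧸ A, (s, t) ∉ Good φ A →
      p * (Sol N A hNA h s t).ncard ≤ (Fib N A hNA s t).ncard := by
    have h1 : ∀ w : (G ⧸ A) × (G ⧸ A), ∃ P : ℕ, w ∉ Good φ A → ∀ p, P < p → p.Prime →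
        ∀ (N : Subgroup G) [N.Normal] [N.FiniteIndex]
        (hNA : N ≤ A) (h : N ≤ N.comap φ), N = pw A hA p →
        p * (Sol N A hNA h w.1 w.2).ncard ≤ (Fib N A hNA w.1 w.2).ncard := by
      intro w
      by_cases hw : w ∈ Good φ A
      · exact ⟨0, fun h => absurd hw h⟩
      · obtain ⟨P, hP⟩ := bad hA hAφ hF w.1 w.2 hw
        exact ⟨P, fun _ => hP⟩
    choose P hP using h1
    refine ⟨∑ w, P w, fun p hp hpp N _ _ hNA h hN s t hst => ?_⟩
    exact hP (s, t) hst p (lt_of_le_of_lt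
      (Finset.single_le_sum (f := P) (fun _ _ => Nat.zero_le _) (Finset.mem_univ (s, t))) hp)
      hpp N hNA h hN
  obtain ⟨P, hP⟩ := hbad
  have hbdd : BddBelow {t : ℝ | ∃ (N : Subgroup G) (_ : N.Normal) (h : N ≤ N.comap φ),
      N.FiniteIndex ∧ t = tdcFinite (QuotientGroup.map N N φ h)} := by
    refine ⟨0, ?_⟩
    rintro _ ⟨N, _, h, _, rfl⟩
    unfold tdcFinite
    positivity
  apply le_antisymm
  · apply le_csInf
    · exact ⟨_, ⊤, inferInstance, le_top.trans (by rw [Subgroup.comap_top]), inferInstance, rfl⟩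
    · rintro _ ⟨N, _, h, _, rfl⟩
      exact upper hX hgen hr φ N h
  · refine le_trans ?_ (lower hX hgen hr φ A)
    apply le_of_forall_pos_le_add
    intro ε hε
    obtain ⟨M, hM⟩ := exists_nat_gt (1 / ε)
    obtain ⟨p, hpM, hpp⟩ := Nat.exists_infinite_primes (max (P + 1) (M + 1))
    have hp1 : P < p := by omega
    have hp2 : M < p := by omega
    have hnorm := pw_normal A hA p
    have hfi := pw_finiteIndex A hA hpp.ne_zero
    have hcom := pw_comap A hA p hAφ
    have h1 := tdcFinite_le (pw_le A hA p) hcom hpp.pos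
      (hP p hp1 hpp (pw A hA p) (pw_le A hA p) hcom rfl)
    have h2 : infQuotients φ ≤ tdcFinite (QuotientGroup.map (pw A hA p) (pw A hA p) φ hcom) :=
      csInf_le hbdd ⟨pw A hA p, hnorm, hcom, hfi, rfl⟩
    refine (h2.trans h1).trans ?_
    have h3 : (1 : ℝ) / p ≤ ε := by
      rw [div_le_iff₀ (by exact_mod_cast hpp.pos)]
      have h4 : (1 : ℝ) / ε < p := hM.trans (by exact_mod_cast hp2)
      rw [div_lt_iff₀ hε] at h4
      linarith
    linarith

end Q29.TV
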