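import Pool.Agent.Q29.TV.Defs

/-!
# Fully invariant free abelian subgroups of finite index, and their subgroups of powers
-/

namespace Q29.TV

variable {G : Type*} [Group G]

/-- the subgroup of the `n`-th powers of an abelian subgroup -/
def pw (A : Subgroup G) (hA : ∀ a ∈ A, ∀ b ∈ A, a * b = b * a) (n : ℕ) : Subgroup G where
  carrier := {g | ∃ a ∈ A, a ^ n = g}
  mul_mem' := by
    rintro _ _ ⟨a, ha, rfl⟩ ⟨b, hb, rfl⟩
    exact ⟨a * b, mul_mem ha hb, (show Commute a b from hA a ha b hb).mul_pow n⟩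
  one_mem' := ⟨1, one_mem A, one_pow n⟩
  inv_mem' := by
    rintro _ ⟨a, ha, rfl⟩
    exact ⟨a⁻¹, inv_mem ha, inv_pow a n⟩

theorem mem_pw {A : Subgroup G} {hA : ∀ a ∈ A, ∀ b ∈ A, a * b = b * a} {n : ℕ} {g : G} :
    g ∈ pw A hA n ↔ ∃ a ∈ A, a ^ n = g := Iff.rfl

theorem pw_le (A : Subgroup G) (hA : ∀ a ∈ A, ∀ b ∈ A, a * b = b * a) (n : ℕ) :
    pw A hA n ≤ A := by
  rintro _ ⟨a, ha, rfl⟩
  exact pow_mem ha n

theorem pw_normal (A : Subgroup G) [hn : A.Normal] (hA : ∀ a ∈ A, ∀ b ∈ A, a * b = b * a)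
    (n : ℕ) : (pw A hA n).Normal := by
  constructor
  rintro _ ⟨a, ha, rfl⟩ g
  exact ⟨g * a * g⁻¹, hn.conj_mem a ha g, by rw [conj_pow]⟩

theorem pw_comap (A : Subgroup G) (hA : ∀ a ∈ A, ∀ b ∈ A, a * b = b * a) (n : ℕ) {φ : G →* G}
    (h : A ≤ A.comap φ) : pw A hA n ≤ (pw A hA n).comap φ := by
  rintro _ ⟨a, ha, rfl⟩
  exact ⟨φ a, h ha, (map_pow φ a n).symm⟩

theorem pw_finiteIndex [Group.FG G] (A : Subgroup G) [A.FiniteIndex]
    (hA : ∀ a ∈ A, ∀ b ∈ A, a * b = b * a) {n : ℕ} (hn : n ≠ 0) : (pw A hA n).FiniteIndex := by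
  let _ : CommGroup A := { (inferInstance : Group A) with
    mul_comm := fun a b => Subtype.ext (hA a a.2 b b.2) }
  have hfg : Group.FG A := inferInstance
  have h1 := Subgroup.finiteIndex_range_powMonoidHom_of_fg A hn
  have h2 : pw A hA n = ((powMonoidHom n : A →* A).range).map A.subtype := by
    ext g
    simp only [mem_pw, Subgroup.mem_map, MonoidHom.mem_range, powMonoidHom_apply,
      Subgroup.coe_subtype]
    constructor
    · rintro ⟨a, ha, rfl⟩
      exact ⟨⟨a, ha⟩ ^ n, ⟨⟨a, ha⟩, rfl⟩, rfl⟩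
    · rintro ⟨_, ⟨a, rfl⟩, rfl⟩
      exact ⟨a, a.2, rfl⟩
  rw [h2]
  constructor
  rw [Subgroup.index_map_subtype]
  exact Nat.mul_ne_zero h1.index_ne_zero Subgroup.FiniteIndex.index_ne_zero

theorem exists_good [Group.FG G] (hG : IsVirtuallyAbelian G) :
    ∃ (A : Subgroup G) (j : Type) (F : A →* (j → Multiplicative ℤ)), A.Normal ∧
      A.FiniteIndex ∧ (∀ a ∈ A, ∀ b ∈ A, a * b = b * a) ∧ (∀ ψ : G →* G, A ≤ A.comap ψ) ∧
      Function.Injective F := by
  obtain ⟨B, hBf, hBc⟩ := hG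
  have hC1 : (B.normalCore).FiniteIndex := inferInstance
  have hCc : ∀ a ∈ B.normalCore, ∀ b ∈ B.normalCore, a * b = b * a := fun a ha b hb =>
    hBc a (B.normalCore_le ha) b (B.normalCore_le hb)
  obtain ⟨C, hC⟩ : ∃ C : Subgroup G, C = B.normalCore := ⟨_, rfl⟩
  rw [← hC] at hC1 hCc
  have hCn : C.Normal := hC ▸ Subgroup.normalCore_normal B
  let _ : CommGroup C := { (inferInstance : Group C) with
    mul_comm := fun a b => Subtype.ext (hCc a a.2 b b.2) }
  have hfg : Group.FG C := inferInstance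
  obtain ⟨ι, j, _, _, p, hp, e, ⟨E⟩⟩ := CommGroup.equiv_free_prod_prod_multiplicative_zmod C
  have hpe : ∀ i, NeZero (p i ^ e i) := fun i => ⟨pow_ne_zero _ (hp i).ne_zero⟩
  have hT : ∃ t : ℕ, t ≠ 0 ∧ ∀ x : (i : ι) → Multiplicative (ZMod (p i ^ e i)), x ^ t = 1 := by
    refine ⟨∏ i, p i ^ e i, Finset.prod_ne_zero_iff.mpr fun i _ => (hpe i).out, fun x => ?_⟩
    funext i
    rw [Pi.pow_apply, Pi.one_apply]
    obtain ⟨c, hc⟩ := Finset.dvd_prod_of_mem (fun i => p i ^ e i) (Finset.mem_univ i)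
    rw [hc, pow_mul]
    have h1 : x i ^ (p i ^ e i) = 1 := by
      apply Multiplicative.toAdd.injective
      rw [toAdd_pow, toAdd_one, nsmul_eq_mul, CharP.cast_eq_zero, zero_mul]
    rw [h1, one_pow]
  obtain ⟨t, ht0, ht⟩ := hT
  set m := C.index with hm
  have hm0 : m ≠ 0 := Subgroup.FiniteIndex.index_ne_zero
  have hpow : ∀ g : G, g ^ m ∈ C := fun g => Subgroup.pow_index_mem C g
  -- the kernel of the projection to the torsion part
  set K : Subgroup C := ((MonoidHom.snd _ _).comp E.toMonoidHom).ker with hK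
  have hKmem : ∀ c : C, c ∈ K ↔ (E c).2 = 1 := fun c => Iff.rfl
  set A : Subgroup G := Subgroup.closure (Set.range fun g : G => g ^ (m * t)) with hAdef
  have hAK : A ≤ K.map C.subtype := by
    rw [hAdef, Subgroup.closure_le]
    rintro _ ⟨g, rfl⟩
    refine ⟨(⟨g ^ m, hpow g⟩ : C) ^ t, ?_, ?_⟩
    · rw [SetLike.mem_coe, hKmem, map_pow, Prod.pow_snd]
      exact ht _
    · simp [pow_mul]
  have hAC : A ≤ C := hAK.trans (Subgroup.map_subtype_le K)
  refine ⟨A, j, ((MonoidHom.fst _ _).comp E.toMonoidHom).comp (Subgroup.inclusion hAC), ?_, ?_,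
    fun a ha b hb => hCc a (hAC ha) b (hAC hb), ?_, ?_⟩
  · -- normality
    constructor
    intro a ha g
    have h1 : A ≤ A.comap (MulAut.conj g).toMonoidHom := by
      rw [hAdef, Subgroup.closure_le]
      rintro _ ⟨x, rfl⟩
      refine Subgroup.subset_closure ⟨g * x * g⁻¹, ?_⟩
      simp [conj_pow]
    exact h1 ha
  · -- finite index
    have h1 : pw C hCc (m * t) ≤ A := by
      rintro _ ⟨a, _, rfl⟩
      exact Subgroup.subset_closure ⟨a, rfl⟩
    have h2 := pw_finiteIndex C hCc (Nat.mul_ne_zero hm0 ht0)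
    exact Subgroup.finiteIndex_of_le h1
  · intro ψ
    rw [hAdef, Subgroup.closure_le]
    rintro _ ⟨x, rfl⟩
    exact Subgroup.subset_closure ⟨ψ x, (map_pow ψ x _).symm⟩
  · intro a b hab
    have h1 : ∀ a : A, (E (Subgroup.inclusion hAC a)).2 = 1 := by
      intro a
      obtain ⟨c, hc, hca⟩ := hAK a.2
      have h2 : Subgroup.inclusion hAC a = c := Subtype.ext hca.symm
      rw [h2]
      exact hc
    have h2 : E (Subgroup.inclusion hAC a) = E (Subgroup.inclusion hAC b) :=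
      Prod.ext hab ((h1 a).trans (h1 b).symm)
    exact Subgroup.inclusion_injective hAC (E.injective h2)

/-- a nontrivial element is not a `p`-th power for large primes `p` -/
theorem not_mem_pw {A : Subgroup G} {j : Type} {F : A →* (j → Multiplicative ℤ)}
    (hF : Function.Injective F) (hA : ∀ a ∈ A, ∀ b ∈ A, a * b = b * a) {x : G} (hx : x ≠ 1) :
    ∃ P : ℕ, ∀ p, P < p → x ∉ pw A hA p := by
  by_cases hxA : x ∈ A
  · have h1 : F ⟨x, hxA⟩ ≠ 1 := by
      intro h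
      apply hx
      have := hF (h.trans F.map_one.symm)
      exact congrArg Subtype.val this
    obtain ⟨i, hi⟩ := Function.ne_iff.mp h1
    refine ⟨(Multiplicative.toAdd (F ⟨x, hxA⟩ i)).natAbs, fun p hp hm => ?_⟩
    obtain ⟨a, ha, hax⟩ := hm
    have h2 : (⟨x, hxA⟩ : A) = ⟨a, ha⟩ ^ p := Subtype.ext hax.symm
    have h3 : Multiplicative.toAdd (F ⟨x, hxA⟩ i) = p * Multiplicative.toAdd (F ⟨a, ha⟩ i) := by
      rw [h2, map_pow, Pi.pow_apply, toAdd_pow, nsmul_eq_mul]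
    have h4 : Multiplicative.toAdd (F ⟨x, hxA⟩ i) ≠ 0 := fun h => hi (by
      apply Multiplicative.toAdd.injective
      rw [h]
      rfl)
    have h5 : (p : ℤ) ∣ Multiplicative.toAdd (F ⟨x, hxA⟩ i) := ⟨_, h3⟩
    have h6 := Int.natAbs_dvd_natAbs.mpr h5
    rw [Int.natAbs_natCast] at h6
    have h7 := Nat.le_of_dvd (Int.natAbs_pos.mpr h4) h6
    omega
  · exact ⟨0, fun p _ hm => hxA (pw_le A hA p hm)⟩

end Q29.TV
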